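import Pool.Agent.TH679.TS.Main

/-!
Nondeterministic almost thrifty programs for stacks of butterfly networks: asymptotic form
-/

set_option autoImplicit false

namespace Pool.Agent.TH679.TS

open Finset
open Pool.Agent.H554R2.Thrifty (BP)
open Pool.Agent.W994.DE (Dag Trav trav_congr isComp_iff exists_nodup pt)
open Pool.Agent.W994.DE.Dag
open Pool.Agent.TH679.PD

theorem card_Var_le {G : Dag} {k : ℕ} (hk : 1 ≤ k) (hd : ∀ i, G.deg i ≤ 2) :
    Fintype.card (G.Var k) ≤ Fintype.card G.V * k ^ 2 := by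
  rw [Fintype.card_sigma]
  calc ∑ i : G.V, Fintype.card (Fin (G.deg i) → Fin k) ≤ ∑ _i : G.V, k ^ 2 := by
        refine sum_le_sum fun i _ => ?_
        rw [Fintype.card_fun, Fintype.card_fin, Fintype.card_fin]
        exact Nat.pow_le_pow_right hk (hd i)
    _ = _ := by rw [sum_const, card_univ, smul_eq_mul]

theorem card_Var_ge {G : Dag} {k : ℕ} (hk : 1 ≤ k) :
    Fintype.card G.V ≤ Fintype.card (G.Var k) := by
  rw [Fintype.card_sigma]
  calc Fintype.card G.V = ∑ _i : G.V, 1 := by rw [sum_const, card_univ, smul_eq_mul, mul_one]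
    _ ≤ _ := by
        refine sum_le_sum fun i _ => ?_
        rw [Fintype.card_fun, Fintype.card_fin, Fintype.card_fin]
        exact Nat.one_le_pow _ _ hk

/-- the bounds for the number of input bits -/
theorem bits {d j k N : ℕ} [NeZero d] (hk : k = (96 * d) ^ 4 + 1)
    (hN : N = Fintype.card ((bfly d ((j + 1) * d)).Var k) * Nat.clog 2 k) :
    ((j + 1) * d + 1) * 2 ^ d ≤ N ∧ N ≤ 2 ^ d * (j + 1) * (97 * d) ^ 13 := by
  have hd : 1 ≤ d := Nat.one_le_iff_ne_zero.2 (NeZero.ne d)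
  have h96 : 0 < (96 * d) ^ 4 := by positivity
  have hk1 : 1 ≤ k := by omega
  have hk2 : k ≤ (97 * d) ^ 4 := by
    rw [hk]
    have h1 : 1 ≤ d ^ 4 := Nat.one_le_pow _ _ hd
    have h2 : (96 * d) ^ 4 = 96 ^ 4 * d ^ 4 := mul_pow _ _ _
    have h3 : (97 * d) ^ 4 = 97 ^ 4 * d ^ 4 := mul_pow _ _ _
    rw [h2, h3]
    omega
  have hcl : 1 ≤ Nat.clog 2 k := Nat.clog_pos (by norm_num) (by omega)
  have hcl2 : Nat.clog 2 k ≤ k := by
    rw [Nat.clog_le_iff_le_pow (by norm_num)]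
    exact Nat.lt_two_pow_self.le
  have hV : Fintype.card (bfly d ((j + 1) * d)).V = ((j + 1) * d + 1) * 2 ^ d := card_V _
  refine ⟨?_, ?_⟩
  · rw [hN, ← hV]
    calc Fintype.card (bfly d ((j + 1) * d)).V ≤
        Fintype.card ((bfly d ((j + 1) * d)).Var k) := card_Var_ge hk1
      _ ≤ _ := Nat.le_mul_of_pos_right _ hcl
  · rw [hN]
    calc Fintype.card ((bfly d ((j + 1) * d)).Var k) * Nat.clog 2 k
        ≤ Fintype.card (bfly d ((j + 1) * d)).V * k ^ 2 * k :=
          Nat.mul_le_mul (card_Var_le hk1 (deg_le _)) hcl2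
      _ = ((j + 1) * d + 1) * 2 ^ d * k ^ 3 := by rw [hV]; ring
      _ ≤ ((j + 1) * (97 * d)) * 2 ^ d * ((97 * d) ^ 4) ^ 3 := by
          refine Nat.mul_le_mul (Nat.mul_le_mul_right _ ?_) (Nat.pow_le_pow_left hk2 3)
          nlinarith
      _ = 2 ^ d * (j + 1) * (97 * d) ^ 13 := by ring

theorem polylog (K ε : ℝ) (hK : 0 < K) (hε : 0 < ε) : ∃ d₀ : ℕ, ∀ d : ℕ, d₀ ≤ d →
    K * (97 * (d : ℝ)) ^ 13 ≤ ((2 : ℝ) ^ d) ^ ε := by
  have h1 : (1 : ℝ) < (2 : ℝ) ^ ε := Real.one_lt_rpow (by norm_num) hε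
  have h2 := tendsto_pow_const_div_const_pow_of_one_lt 13 h1
  have h3 : (0 : ℝ) < 1 / (K * 97 ^ 13) := by positivity
  obtain ⟨a, ha⟩ := Filter.eventually_atTop.mp (h2.eventually (gt_mem_nhds h3))
  refine ⟨a, fun d hd => ?_⟩
  have h4 := ha d hd
  have h5 : (0 : ℝ) < ((2 : ℝ) ^ ε) ^ d := by positivity
  rw [div_lt_div_iff₀ h5 (by positivity)] at h4
  have h6 : ((2 : ℝ) ^ d) ^ ε = ((2 : ℝ) ^ ε) ^ d := by
    rw [← Real.rpow_natCast, ← Real.rpow_natCast, ← Real.rpow_mul (by norm_num),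
      ← Real.rpow_mul (by norm_num), mul_comm]
  rw [h6, mul_pow]
  linarith

theorem logb_le (y : ℝ) (hy : 1 ≤ y) : Real.logb 2 y ≤ 2 * y := by
  rw [Real.logb, div_le_iff₀ (Real.log_pos (by norm_num))]
  have h8 := Real.log_le_sub_one_of_pos (show 0 < y by linarith)
  have h9 : (0.6931471803 : ℝ) < Real.log 2 := Real.log_two_gt_d9
  have h10 : y * (1 / 2) ≤ y * Real.log 2 := mul_le_mul_of_nonneg_left (by linarith) (by linarith)
  linarith

/-- the estimates -/
theorem estimates {α ε n B N : ℝ} (hα0 : 0 ≤ α) (hα1 : α < 1) (hε : 0 < ε) (hn : 1 ≤ n)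
    (hB : 1 ≤ B) (hBn : 8 * B ≤ n ^ ε) (h1 : n ^ (1 + α / (1 - α)) ≤ N)
    (h2 : N ≤ n ^ (1 + α / (1 - α)) * B) :
    N ^ (1 - α - ε) ≤ n / 8 ∧ N ^ (α - ε) ≤ n ^ (α / (1 - α)) ∧ n * n ^ ε ≤ N ^ (1 - α + ε) := by
  have hβ : 0 < 1 - α := by linarith
  have hn0 : 0 < n := by linarith
  have hc : 0 ≤ α / (1 - α) := div_nonneg hα0 hβ.le
  have hN1 : n ≤ N := by
    calc n = n ^ (1 : ℝ) := (Real.rpow_one n).symm
      _ ≤ n ^ (1 + α / (1 - α)) := Real.rpow_le_rpow_of_exponent_le hn (by linarith)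
      _ ≤ N := h1
  have hN0 : 0 < N := by linarith
  have hNε : n ^ ε ≤ N ^ ε := Real.rpow_le_rpow hn0.le hN1 hε.le
  have hnε : 0 < n ^ ε := Real.rpow_pos_of_pos hn0 _
  have e1 : (1 + α / (1 - α)) * (1 - α) = 1 := by field_simp; ring
  have e2 : (1 + α / (1 - α)) * α = α / (1 - α) := by field_simp; ring
  have hM : 0 < n ^ (1 + α / (1 - α)) := Real.rpow_pos_of_pos hn0 _
  have key : ∀ γ, 0 ≤ γ → γ ≤ 1 → N ^ γ ≤ n ^ ((1 + α / (1 - α)) * γ) * B := by
    intro γ h3 h4
    calc N ^ γ ≤ (n ^ (1 + α / (1 - α)) * B) ^ γ := Real.rpow_le_rpow hN0.le h2 h3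
      _ = n ^ ((1 + α / (1 - α)) * γ) * B ^ γ := by
          rw [Real.mul_rpow hM.le (by linarith), ← Real.rpow_mul hn0.le]
      _ ≤ n ^ ((1 + α / (1 - α)) * γ) * B ^ (1 : ℝ) :=
          mul_le_mul_of_nonneg_left (Real.rpow_le_rpow_of_exponent_le hB h4)
            (Real.rpow_nonneg hn0.le _)
      _ = _ := by rw [Real.rpow_one]
  have hsub : ∀ γ, N ^ (γ - ε) = N ^ γ / N ^ ε := fun γ => Real.rpow_sub hN0 _ _
  refine ⟨?_, ?_, ?_⟩
  · rw [hsub, div_le_div_iff₀ (by linarith) (by norm_num)]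
    have h3 := key (1 - α) hβ.le (by linarith)
    rw [e1, Real.rpow_one] at h3
    calc N ^ (1 - α) * 8 ≤ n * B * 8 := mul_le_mul_of_nonneg_right h3 (by norm_num)
      _ = n * (8 * B) := by ring
      _ ≤ n * n ^ ε := mul_le_mul_of_nonneg_left hBn hn0.le
      _ ≤ n * N ^ ε := mul_le_mul_of_nonneg_left hNε hn0.le
  · rw [hsub, div_le_iff₀ (by linarith)]
    have h3 := key α hα0 hα1.le
    rw [e2] at h3
    refine h3.trans (mul_le_mul_of_nonneg_left ?_ (Real.rpow_nonneg hn0.le _))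
    linarith
  · rw [Real.rpow_add hN0]
    refine mul_le_mul ?_ hNε hnε.le (Real.rpow_nonneg hN0.le _)
    calc n = n ^ ((1 + α / (1 - α)) * (1 - α)) := by rw [e1, Real.rpow_one]
      _ = (n ^ (1 + α / (1 - α))) ^ (1 - α) := Real.rpow_mul hn0.le _ _
      _ ≤ N ^ (1 - α) := Real.rpow_le_rpow hM.le h1 hβ.le

/-- The asymptotic form. -/
theorem asym (α ε : ℝ) (hα0 : 0 ≤ α) (hα1 : α < 1) (hε : 0 < ε) : ∃ d₀ : ℕ,
    ∀ (d : ℕ) [NeZero d], d₀ ≤ d → ∀ j k N : ℕ, j = ⌈((2 : ℝ) ^ d) ^ (α / (1 - α))⌉₊ →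
    k = (96 * d) ^ 4 + 1 →
    N = Fintype.card ((bfly d ((j + 1) * d)).Var k) * Nat.clog 2 k →
    ∀ (S : Fin k → Bool), (∃ a, S a = true) → (∃ b, S b = false) →
    (∀ P : BP ((bfly d ((j + 1) * d)).Var k) k, Decides P (top d j) S → Waste P (2 ^ d / 64) →
      (∀ x, S (value x (top d j)) = true →
        ∃ l, P.IsComp x l true ∧ (l.length : ℝ) ≤ (2 : ℝ) ^ ((N : ℝ) ^ (α - ε))) →
      (N : ℝ) ^ (1 - α - ε) ≤ Real.logb 2 P.size) ∧
    (1 / 2 ≤ α → ∀ P : BP ((bfly d ((j + 1) * d)).Var k) k, Decides P (top d j) S →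
      Waste P (2 ^ d / 64) → (N : ℝ) ^ (1 - α - ε) ≤ Real.logb 2 P.size) ∧
    ∃ P : BP ((bfly d ((j + 1) * d)).Var k) k, P.Deterministic ∧
      P.Solves (fun x => S (value x (top d j))) ∧
      (∀ x l R, P.IsComp x l R → l.length ≤ N ∧ ∀ q ∈ l, Relevant x (P.query q)) ∧
      Real.logb 2 P.size ≤ (N : ℝ) ^ (1 - α + ε) := by
  obtain ⟨c, hc⟩ : ∃ c, α / (1 - α) = c := ⟨_, rfl⟩
  have hβ : 0 < 1 - α := by linarith
  have hc0 : 0 ≤ c := by rw [← hc]; exact div_nonneg hα0 hβ.le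
  obtain ⟨d₁, hd₁⟩ := polylog (24 + 2 * c) ε (by linarith) hε
  obtain ⟨d₂, hd₂⟩ := polylog (24 + 2 * c) 1 (by linarith) one_pos
  refine ⟨max 5 (max d₁ d₂), ?_⟩
  intro d _ hd j k N hj hk hN S hS1 hS2
  obtain ⟨a₀, hSa⟩ := hS1
  obtain ⟨δ, hSδ⟩ := hS2
  have hd5 : 5 ≤ d := le_trans (le_max_left _ _) hd
  have g1 := hd₁ d (le_trans (le_trans (le_max_left _ _) (le_max_right _ _)) hd)
  have g2 := hd₂ d (le_trans (le_trans (le_max_right _ _) (le_max_right _ _)) hd)
  rw [Real.rpow_one] at g2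
  obtain ⟨n, hn⟩ : ∃ n : ℝ, (2 : ℝ) ^ d = n := ⟨_, rfl⟩
  rw [hn] at g1 g2 hj
  rw [hc] at hj
  have hdR : (5 : ℝ) ≤ d := by exact_mod_cast hd5
  have hn1 : 1 ≤ n := by rw [← hn]; exact one_le_pow₀ (by norm_num)
  have hn0 : 0 < n := by linarith
  have hnc : 1 ≤ n ^ c := Real.one_le_rpow hn1 hc0
  -- the number `j`
  have hj1 : n ^ c ≤ j := by rw [hj]; exact Nat.le_ceil _
  have hj2 : (j : ℝ) ≤ n ^ c + 1 := by rw [hj]; exact (Nat.ceil_lt_add_one (by linarith)).le
  have hj0 : 1 ≤ j := by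
    have : (1 : ℝ) ≤ j := by linarith
    exact_mod_cast this
  -- the number `N`
  obtain ⟨b1, b2⟩ := bits hk hN
  obtain ⟨D, hD⟩ : ∃ D, (97 * (d : ℝ)) ^ 13 = D := ⟨_, rfl⟩
  rw [hD] at g1 g2
  have hD1 : 1 ≤ D := by rw [← hD]; exact one_le_pow₀ (by linarith)
  have hdD : (d : ℝ) ≤ D := by
    rw [← hD]
    calc (d : ℝ) ≤ 97 * d := by linarith
      _ = (97 * (d : ℝ)) ^ 1 := (pow_one _).symm
      _ ≤ (97 * (d : ℝ)) ^ 13 := pow_le_pow_right₀ (by linarith) (by norm_num)
  have hN1 : n ^ (1 + c) ≤ N := by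
    have h1 : ((j * 2 ^ d : ℕ) : ℝ) ≤ N := by
      refine Nat.cast_le.2 (le_trans (Nat.mul_le_mul_right _ ?_) b1)
      nlinarith
    push_cast at h1
    rw [hn] at h1
    calc n ^ (1 + c) = n ^ c * n := by rw [Real.rpow_add hn0, Real.rpow_one, mul_comm]
      _ ≤ j * n := mul_le_mul_of_nonneg_right hj1 hn0.le
      _ ≤ N := h1
  have hN2 : (N : ℝ) ≤ n ^ (1 + c) * (3 * D) := by
    have h1 : (N : ℝ) ≤ ((2 ^ d * (j + 1) * (97 * d) ^ 13 : ℕ) : ℝ) := Nat.cast_le.2 b2
    push_cast at h1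
    rw [hn, hD] at h1
    calc (N : ℝ) ≤ n * (j + 1) * D := h1
      _ ≤ n * (3 * n ^ c) * D := by
          refine mul_le_mul_of_nonneg_right (mul_le_mul_of_nonneg_left ?_ hn0.le) (by linarith)
          linarith
      _ = n ^ (1 + c) * (3 * D) := by rw [Real.rpow_add hn0, Real.rpow_one]; ring
  have hest := estimates (n := n) (B := 3 * D) (N := N) hα0 hα1 hε hn1 (by linarith)
    (by
      have h1 : 0 ≤ 2 * c * D := by positivity
      linarith) (by rw [hc]; exact hN1) (by rw [hc]; exact hN2)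
  rw [hc] at hest
  obtain ⟨f1, f2, f3⟩ := hest
  have hNn : n ≤ N := by
    calc n = n ^ (1 : ℝ) := (Real.rpow_one n).symm
      _ ≤ n ^ (1 + c) := Real.rpow_le_rpow_of_exponent_le hn1 (by linarith)
      _ ≤ N := hN1
  have hNR : (1 : ℝ) ≤ N := by linarith
  have main : ∀ P : BP ((bfly d ((j + 1) * d)).Var k) k, Decides P (top d j) S →
      Waste P (2 ^ d / 64) → (∀ x, S (value x (top d j)) = true →
        ∃ l, P.IsComp x l true ∧ (l.length : ℝ) ≤ (2 : ℝ) ^ ((N : ℝ) ^ (α - ε))) →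
      (N : ℝ) ^ (1 - α - ε) ≤ Real.logb 2 P.size := by
    intro P hP hW hT
    have h1 := law (t := 2 ^ d / 64) hd5 (Nat.mul_div_le _ _) (by omega) hP hW hSa hSδ (by
      intro x hx
      obtain ⟨l, h2, h3⟩ := hT x hx
      refine ⟨l, h2, ?_⟩
      have h4 : (l.length : ℝ) ≤ ((2 ^ j : ℕ) : ℝ) := by
        refine h3.trans ?_
        push_cast
        rw [← Real.rpow_natCast]
        exact Real.rpow_le_rpow_of_exponent_le (by norm_num) (f2.trans hj1)
      have h5 : l.length ≤ 2 ^ j := by exact_mod_cast h4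
      exact lt_of_le_of_lt h5 (Nat.pow_lt_pow_right (by norm_num) (by omega)))
    have h2 : 2 ^ 2 ^ d ≤ P.size ^ 2 * j := by
      refine le_trans ?_ h1
      have h3 : 2 ^ 32 ≤ k - 1 := by
        rw [hk, Nat.add_sub_cancel]
        calc 2 ^ 32 ≤ (96 * 5) ^ 4 := by norm_num
          _ ≤ (96 * d) ^ 4 := Nat.pow_le_pow_left (Nat.mul_le_mul_left _ hd5) 4
      calc 2 ^ 2 ^ d = (2 ^ 32) ^ 2 ^ (d - 5) := by
            rw [← pow_mul]
            congr 1
            have h4 : d = d - 5 + 5 := by omega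
            conv_lhs => rw [h4, pow_add]
            ring
        _ ≤ _ := Nat.pow_le_pow_left h3 _
    have hs0 : (0 : ℝ) < P.size := by
      have : 0 < P.size := Nat.succ_pos _
      exact_mod_cast this
    have hjR : (0 : ℝ) < j := by exact_mod_cast hj0
    have h3 : n ≤ 2 * Real.logb 2 P.size + Real.logb 2 j := by
      have h4 : Real.logb 2 ((2 : ℝ) ^ 2 ^ d) ≤ Real.logb 2 ((P.size : ℝ) ^ 2 * j) := by
        refine Real.logb_le_logb_of_le (by norm_num) (by positivity) ?_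
        exact_mod_cast h2
      rw [Real.logb_pow, Real.logb_self_eq_one (by norm_num), Real.logb_mul (by positivity)
        (by positivity), Real.logb_pow] at h4
      push_cast at h4
      rw [hn] at h4
      linarith
    have h4 : Real.logb 2 j ≤ 1 + c * d := by
      calc Real.logb 2 j ≤ Real.logb 2 (2 * n ^ c) :=
            Real.logb_le_logb_of_le (by norm_num) hjR (by linarith)
        _ = 1 + c * d := by
            rw [Real.logb_mul (by norm_num) (by positivity), Real.logb_self_eq_one (by norm_num),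
              Real.logb_rpow_eq_mul_logb_of_pos hn0, ← hn, Real.logb_pow,
              Real.logb_self_eq_one (by norm_num)]
            ring
    have h5 : 1 + c * d ≤ n / 2 := by
      have h6 : c * d ≤ c * D := mul_le_mul_of_nonneg_left hdD hc0
      linarith
    linarith
  refine ⟨main, ?_, ?_⟩
  · intro hα2 P hP hW
    by_contra hno
    push Not at hno
    refine absurd (main P hP hW fun x hx => ?_) (not_le.2 hno)
    obtain ⟨l, h1, h2⟩ := short hP x hx
    refine ⟨l, h1, ?_⟩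
    have hs0 : (0 : ℝ) < P.size := by
      have : 0 < P.size := Nat.succ_pos _
      exact_mod_cast this
    calc (l.length : ℝ) ≤ P.size := by exact_mod_cast (by omega : l.length ≤ P.size)
      _ = (2 : ℝ) ^ Real.logb 2 P.size := (Real.rpow_logb (by norm_num) (by norm_num) hs0).symm
      _ ≤ (2 : ℝ) ^ ((N : ℝ) ^ (α - ε)) := by
          refine Real.rpow_le_rpow_of_exponent_le (by norm_num) (hno.le.trans ?_)
          exact Real.rpow_le_rpow_of_exponent_le hNR (by linarith)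
  · obtain ⟨P, h1, h2, h3, h4⟩ := upperB d j k (by omega) S
    refine ⟨P, h1, h2, fun x l R hl => ?_, ?_⟩
    · obtain ⟨h5, h6⟩ := h3 x l R hl
      exact ⟨by rw [h5]; exact b1, h6⟩
    · refine le_trans ?_ f3
      have hk0 : 1 ≤ k := by omega
      have hkD : (k : ℝ) ≤ D := by
        have h5 : k ≤ (97 * d) ^ 13 := by
          calc k ≤ (97 * d) ^ 4 := by
                rw [hk]
                have h1 : 1 ≤ d ^ 4 := Nat.one_le_pow _ _ (by omega)
                rw [mul_pow, mul_pow]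
                omega
            _ ≤ (97 * d) ^ 13 := Nat.pow_le_pow_right (by omega) (by norm_num)
        rw [← hD]
        exact_mod_cast h5
      have h5 : P.size ≤ 2 * (((j + 1) * d + 1) * 2 ^ d * k ^ (2 * 2 ^ d)) := by
        rw [h4]
        have h6 : 1 ≤ k ^ (2 * 2 ^ d) := Nat.one_le_pow _ _ hk0
        have h7 : 2 ≤ (j + 1) * d + 1 := by nlinarith
        have h8 : 2 ≤ ((j + 1) * d + 1) * 2 ^ d * k ^ (2 * 2 ^ d) := by
          calc 2 = 2 * 1 * 1 := rfl
            _ ≤ _ := Nat.mul_le_mul (Nat.mul_le_mul h7 Nat.one_le_two_pow) h6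
        omega
      have hs0 : (0 : ℝ) < P.size := by
        have : 0 < P.size := Nat.succ_pos _
        exact_mod_cast this
      have hkR : (1 : ℝ) ≤ k := by exact_mod_cast hk0
      have hV : (((j + 1) * d + 1 : ℕ) : ℝ) ≤ 4 * n ^ c * D := by
        have h6 : ((j + 1) * d + 1 : ℕ) ≤ (j + 2) * d := by nlinarith
        calc (((j + 1) * d + 1 : ℕ) : ℝ) ≤ (((j + 2) * d : ℕ) : ℝ) := Nat.cast_le.2 h6
          _ = ((j : ℝ) + 2) * d := by push_cast; ring
          _ ≤ (4 * n ^ c) * D :=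
              mul_le_mul (by linarith) hdD (by linarith) (by linarith)
      have h6 : Real.logb 2 P.size ≤ 1 + (2 + c * d + Real.logb 2 D + d + 2 * n * Real.logb 2 k) := by
        have h7 : (P.size : ℝ) ≤ 2 * ((4 * n ^ c * D) * n * (k : ℝ) ^ (2 * 2 ^ d)) := by
          calc (P.size : ℝ) ≤ ((2 * (((j + 1) * d + 1) * 2 ^ d * k ^ (2 * 2 ^ d)) : ℕ) : ℝ) :=
                Nat.cast_le.2 h5
            _ = 2 * ((((j + 1) * d + 1 : ℕ) : ℝ) * n * (k : ℝ) ^ (2 * 2 ^ d)) := by
                push_cast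
                rw [hn]
            _ ≤ _ := by
                refine mul_le_mul_of_nonneg_left ?_ (by norm_num)
                refine mul_le_mul_of_nonneg_right ?_ (by positivity)
                exact mul_le_mul_of_nonneg_right hV hn0.le
        refine (Real.logb_le_logb_of_le (by norm_num) hs0 h7).trans (le_of_eq ?_)
        have hD0 : 0 < D := by linarith
        have hk00 : (0 : ℝ) < k := by linarith
        have hnc0 : (0 : ℝ) < n ^ c := by linarith
        rw [Real.logb_mul (by norm_num) (by positivity), Real.logb_self_eq_one (by norm_num),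
          Real.logb_mul (by positivity) (by positivity), Real.logb_mul (by positivity)
          (by positivity), Real.logb_mul (by positivity) (by positivity), Real.logb_mul
          (by norm_num) (by positivity), Real.logb_rpow_eq_mul_logb_of_pos hn0, Real.logb_pow]
        have h8 : Real.logb 2 (4 : ℝ) = 2 := by
          rw [show (4 : ℝ) = 2 ^ (2 : ℕ) by norm_num, Real.logb_pow,
            Real.logb_self_eq_one (by norm_num)]
          norm_num
        have h9 : Real.logb 2 n = d := by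
          rw [← hn, Real.logb_pow, Real.logb_self_eq_one (by norm_num), mul_one]
        rw [h8, h9]
        push_cast
        rw [hn]
      have h7 := logb_le D hD1
      have h8 := logb_le k hkR
      have h9 : 2 * n * Real.logb 2 k ≤ n * (4 * D) := by
        have h10 : Real.logb 2 k ≤ 2 * D := h8.trans (by linarith)
        calc 2 * n * Real.logb 2 k ≤ 2 * n * (2 * D) :=
              mul_le_mul_of_nonneg_left h10 (by linarith)
          _ = n * (4 * D) := by ring
      have h10 : c * d ≤ c * D := mul_le_mul_of_nonneg_left hdD hc0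
      calc Real.logb 2 P.size ≤ 1 + (2 + c * d + Real.logb 2 D + d + 2 * n * Real.logb 2 k) := h6
        _ ≤ D + (2 * D + c * D + 2 * D + D + n * (4 * D)) := by linarith
        _ ≤ n * ((24 + 2 * c) * D) := by
            have h11 : (6 + c) * D ≤ n * ((6 + c) * D) := by
              refine le_mul_of_one_le_left ?_ hn1
              positivity
            have h12 : 0 ≤ n * D := by positivity
            have h13 : 0 ≤ c * (n * D) := by positivity
            linarith
        _ ≤ n * n ^ ε := mul_le_mul_of_nonneg_left g1 hn0.le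

end Pool.Agent.TH679.TS
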