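import Pool.Agent.TH679.TS.Short

/-!
Nondeterministic programs with few steps for stacks of butterfly networks: asymptotic form
-/

set_option autoImplicit false

namespace Pool.Agent.TH679.TS

open Finset
open Pool.Agent.H554R2.Thrifty (BP)
open Pool.Agent.W994.DE (Dag Trav trav_congr isComp_iff exists_nodup pt params growth)
open Pool.Agent.W994.DE.Dag
open Pool.Agent.TH679.PD

theorem card_Var_sq {d j k : ℕ} [NeZero d] :
    k ^ 2 ≤ Fintype.card ((bfly d ((j + 1) * d)).Var k) := by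
  rw [card_var]
  have h1 : (bfly d ((j + 1) * d)).deg (top d j) = 2 := by
    show (if (j + 1) * d = 0 then 0 else 2) = 2
    rw [if_neg]
    have : d ≠ 0 := NeZero.ne d
    positivity
  rw [← h1]
  exact single_le_sum (f := fun i => k ^ (bfly d ((j + 1) * d)).deg i)
    (fun _ _ => Nat.zero_le _) (mem_univ (top d j))

/-- the final estimate of the space -/
theorem space_est {n M κ L s : ℝ} {q : ℝ} (hM : 1 ≤ M) (hκ : 1 ≤ κ) (hn : 88 * M ≤ n)
    (h1 : n ≤ 11 * (M * (3 + q))) (hq : q ≤ 2 * s / κ) (hs : s ≤ L + 1) :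
    1 / (88 * M) * (n * κ) ≤ L := by
  have hM0 : 0 < M := by linarith
  have hκ0 : 0 < κ := by linarith
  have h2 : n ≤ 11 * (M * (3 + 2 * s / κ)) := by
    refine h1.trans ?_
    exact mul_le_mul_of_nonneg_left (mul_le_mul_of_nonneg_left (by linarith) hM0.le) (by norm_num)
  have h3 : n * κ ≤ 33 * M * κ + 22 * M * s := by
    have h4 : 11 * (M * (3 + 2 * s / κ)) * κ = 33 * M * κ + 22 * M * s := by
      field_simp
      ring
    rw [← h4]
    exact mul_le_mul_of_nonneg_right h2 hκ0.le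
  have h5 : 22 * M * s ≤ 22 * M * (L + 1) := mul_le_mul_of_nonneg_left hs (by positivity)
  have h6 : 88 * M * κ ≤ n * κ := mul_le_mul_of_nonneg_right hn hκ0.le
  have h7 : M ≤ M * κ := le_mul_of_one_le_right hM0.le hκ
  rw [one_div, inv_mul_le_iff₀ (by positivity)]
  linarith

/-- Short nondeterministic computations need as much space as deterministic ones, up to a constant
factor. -/
theorem asym_short (θ δ : ℝ) (hθ0 : 0 ≤ θ) (hθ : θ < 1 / 4) (hδ : 0 < δ) :
    ∃ (C : ℕ) (c : ℝ) (d₀ : ℕ), 0 < c ∧ ∀ (d : ℕ) [NeZero d], d₀ ≤ d →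
    ∀ j k N : ℕ, j = C * d → k = 2 ^ (C * d) → N = Fintype.card ((bfly d ((j + 1) * d)).Var k) →
    ∀ (S : Fin k → Bool), (∃ a, S a = true) → (∃ b, S b = false) →
    (∀ P : BP ((bfly d ((j + 1) * d)).Var k) k, Decides P (top d j) S →
      (∀ x, S (value x (top d j)) = true →
        ∃ l, P.IsComp x l true ∧ (l.length : ℝ) ≤ (N : ℝ) ^ θ) →
      c * (2 ^ d * Real.logb 2 k) ≤ Real.logb 2 P.size) ∧
    ∃ P : BP ((bfly d ((j + 1) * d)).Var k) k, P.Deterministic ∧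
      P.Solves (fun x => S (value x (top d j))) ∧
      (∀ x l R, P.IsComp x l R → (l.length : ℝ) ≤ (N : ℝ) ^ δ ∧
        ∀ q ∈ l, Relevant x (P.query q)) ∧
      Real.logb 2 P.size ≤ 3 * (2 ^ d * Real.logb 2 k) := by
  obtain ⟨m, C, hm, hC, hmC, hCδ⟩ := params hθ0 hθ hδ
  obtain ⟨h₀, hgr⟩ := growth hmC (by positivity)
  obtain ⟨d₁, hd₁⟩ := polylog (C + 3) 1 (by positivity) one_pos
  have hC0 : (0 : ℝ) < C := by exact_mod_cast hC
  have hC5 : 5 ≤ C := by
    have h1 : (4 : ℝ) < C := by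
      have h2 : ((m : ℝ) + 1) * 4 ≤ (m + 1) * (4 + 4 * θ * (C + 1)) :=
        mul_le_mul_of_nonneg_left (by
          have : 0 ≤ 4 * θ * ((C : ℝ) + 1) := by positivity
          linarith) (by positivity)
      have h3 : (m : ℝ) * 4 < m * C := by nlinarith
      exact lt_of_mul_lt_mul_left h3 (Nat.cast_nonneg m)
    have h2 : 4 < C := by exact_mod_cast h1
    omega
  refine ⟨C, 1 / (88 * ((m : ℝ) + 1)), max (max d₁ 2) (h₀ + 88 * (m + 1)), by positivity, ?_⟩
  intro d _ hd j k N hj hk hN S hS1 hS2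
  obtain ⟨a₀, hSa⟩ := hS1
  obtain ⟨δ', hSδ⟩ := hS2
  have hd1 : d₁ ≤ d := (le_max_left _ _).trans ((le_max_left _ _).trans hd)
  have hd2 : 2 ≤ d := (le_max_right _ _).trans ((le_max_left _ _).trans hd)
  have hd3 : h₀ + 88 * (m + 1) ≤ d := (le_max_right _ _).trans hd
  obtain ⟨n, hn⟩ : ∃ n, 2 ^ d = n := ⟨_, rfl⟩
  have hdn : d < n := by rw [← hn]; exact Nat.lt_two_pow_self
  obtain ⟨h, hh⟩ : ∃ h, n = h + 1 := ⟨n - 1, by omega⟩
  obtain ⟨hh1, g1, g2, _⟩ := hgr h (by omega)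
  -- the number of nodes
  have hV : Fintype.card (bfly d ((j + 1) * d)).V ≤ n ^ 2 := by
    rw [card_V, hn, sq]
    refine Nat.mul_le_mul_right _ ?_
    have h1 := hd₁ d hd1
    rw [Real.rpow_one] at h1
    have h2 : (C + 3) * (97 * d) ^ 13 ≤ n := by
      rw [← hn]
      exact_mod_cast h1
    refine le_trans ?_ h2
    rw [hj]
    have h3 : d ^ 2 ≤ (97 * d) ^ 13 := by
      calc d ^ 2 ≤ (97 * d) ^ 2 := Nat.pow_le_pow_left (by omega) 2
        _ ≤ (97 * d) ^ 13 := Nat.pow_le_pow_right (by omega) (by norm_num)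
    calc (C * d + 1) * d + 1 ≤ (C + 3) * d ^ 2 := by nlinarith
      _ ≤ (C + 3) * (97 * d) ^ 13 := Nat.mul_le_mul_left _ h3
  have hV1 : 1 ≤ Fintype.card (bfly d ((j + 1) * d)).V := Fintype.card_pos_iff.mpr ⟨top d j⟩
  have hkn : k = (h + 1) ^ C := by rw [hk, ← hh, ← hn, ← pow_mul, mul_comm]
  have hk1 : 1 ≤ k := a₀.pos
  have hkN : k ^ 2 ≤ N := by rw [hN]; exact card_Var_sq
  have hN1 : 1 ≤ N := le_trans (Nat.one_le_pow _ _ hk1) hkN
  have hN1' : (1 : ℝ) ≤ N := by exact_mod_cast hN1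
  have hNle : N ≤ (h + 1) ^ (2 * C + 2) := by
    rw [hN]
    calc Fintype.card ((bfly d ((j + 1) * d)).Var k)
        ≤ Fintype.card (bfly d ((j + 1) * d)).V * k ^ 2 := card_Var_le hk1 (deg_le _)
      _ ≤ n ^ 2 * k ^ 2 := Nat.mul_le_mul_right _ hV
      _ = (h + 1) ^ (2 * C + 2) := by rw [hkn, ← pow_mul, hh, ← pow_add]; congr 1; ring
  have hx : (0 : ℝ) < (h : ℝ) + 1 := by positivity
  have hx1 : (1 : ℝ) ≤ (h : ℝ) + 1 := by linarith [Nat.cast_nonneg (α := ℝ) h]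
  have hnx : (n : ℝ) = (h : ℝ) + 1 := by rw [hh]; push_cast; ring
  have hNle' : (N : ℝ) ≤ ((h : ℝ) + 1) ^ (2 * ((C : ℝ) + 1)) := by
    calc (N : ℝ) ≤ (((h + 1) ^ (2 * C + 2) : ℕ) : ℝ) := Nat.cast_le.mpr hNle
      _ = ((h : ℝ) + 1) ^ (2 * ((C : ℝ) + 1)) := by
          rw [Nat.cast_pow, ← Real.rpow_natCast]
          push_cast
          congr 1
          ring
  have hκ : Nat.log 2 k = C * d := by rw [hk, Nat.log_pow (by norm_num)]
  have hlogk : Real.logb 2 k = C * d := by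
    rw [hk]
    push_cast
    rw [Real.logb_pow, Real.logb_self_eq_one (by norm_num)]
    push_cast
    ring
  have hnR : ((2 : ℝ) ^ d) = n := by rw [← hn]; push_cast; rfl
  have hκR : (1 : ℝ) ≤ (C : ℝ) * d := by
    have : 1 ≤ C * d := Nat.mul_pos hC (by omega)
    exact_mod_cast this
  refine ⟨?_, ?_⟩
  · intro P hP hT
    -- the number of steps
    set Z := (N : ℝ) ^ θ with hZ
    have hZ1 : 1 ≤ Z := Real.one_le_rpow hN1' hθ0
    have hZle : Z ≤ ((h : ℝ) + 1) ^ (2 * ((C : ℝ) + 1) * θ) := by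
      calc Z ≤ (((h : ℝ) + 1) ^ (2 * ((C : ℝ) + 1))) ^ θ :=
            Real.rpow_le_rpow (by positivity) hNle' hθ0
        _ = _ := by rw [← Real.rpow_mul hx.le]
    set L := ⌊Z⌋₊ with hL
    have hL1 : 1 ≤ L := by rw [hL]; exact Nat.le_floor (by rw [Nat.cast_one]; exact hZ1)
    have hLZ : (L : ℝ) ≤ Z := Nat.floor_le (by linarith)
    set τ := Nat.log 2 L + 1 with hτ
    have hτ1 : L < 2 ^ τ := Nat.lt_pow_succ_log_self (by norm_num) L
    have hτ2 : 2 ^ τ ≤ 2 * L := by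
      rw [hτ, pow_succ, mul_comm]
      exact Nat.mul_le_mul_left _ (Nat.pow_log_le_self 2 (by omega))
    have hτ4 : ((2 ^ τ : ℕ) : ℝ) ≤ 2 * Z := by
      calc ((2 ^ τ : ℕ) : ℝ) ≤ ((2 * L : ℕ) : ℝ) := Nat.cast_le.mpr hτ2
        _ = 2 * (L : ℝ) := by push_cast; ring
        _ ≤ 2 * Z := by linarith
    have hτ3 : ((4 ^ τ : ℕ) : ℝ) ≤ 4 * ((h : ℝ) + 1) ^ (4 * θ * ((C : ℝ) + 1)) := by
      have h1 : ((4 ^ τ : ℕ) : ℝ) = ((2 ^ τ : ℕ) : ℝ) ^ 2 := by
        push_cast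
        rw [← pow_mul, mul_comm, pow_mul]
        norm_num
      rw [h1]
      calc ((2 ^ τ : ℕ) : ℝ) ^ 2 ≤ (2 * Z) ^ 2 := pow_le_pow_left₀ (Nat.cast_nonneg _) hτ4 2
        _ = 4 * (Z * Z) := by ring
        _ ≤ 4 * (((h : ℝ) + 1) ^ (2 * ((C : ℝ) + 1) * θ) *
              ((h : ℝ) + 1) ^ (2 * ((C : ℝ) + 1) * θ)) := by
            refine mul_le_mul_of_nonneg_left (mul_le_mul hZle hZle (by linarith) ?_) (by norm_num)
            positivity
        _ = 4 * ((h : ℝ) + 1) ^ (4 * θ * ((C : ℝ) + 1)) := by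
            rw [← Real.rpow_add hx]
            congr 2
            ring
    -- `τ ≤ j`
    have hτj : τ ≤ j := by
      have h1 : ((2 ^ (2 * τ) : ℕ) : ℝ) ≤ ((2 ^ (2 * j) : ℕ) : ℝ) := by
        have h2 : 2 ^ (2 * τ) = 4 ^ τ := by rw [pow_mul]; norm_num
        rw [h2]
        refine hτ3.trans ?_
        have h3 : ((h : ℝ) + 1) ^ (4 * θ * ((C : ℝ) + 1)) ≤ ((h : ℝ) + 1) ^ ((C : ℝ) + 1) := by
          refine Real.rpow_le_rpow_of_exponent_le hx1 ?_
          have : 0 < (C : ℝ) + 1 := by positivity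
          nlinarith
        have h4 : ((h : ℝ) + 1) ^ ((C : ℝ) + 1) = (((h + 1) ^ (C + 1) : ℕ) : ℝ) := by
          rw [Nat.cast_pow, ← Real.rpow_natCast]
          push_cast
          rfl
        have h5 : 4 * (h + 1) ^ (C + 1) ≤ 2 ^ (2 * j) := by
          rw [← hh, ← hn, ← pow_mul, hj]
          calc 4 * 2 ^ (d * (C + 1)) = 2 ^ (d * (C + 1) + 2) := by rw [pow_add]; ring
            _ ≤ 2 ^ (2 * (C * d)) := Nat.pow_le_pow_right (by norm_num) (by nlinarith)
        calc 4 * ((h : ℝ) + 1) ^ (4 * θ * ((C : ℝ) + 1)) ≤ 4 * (((h + 1) ^ (C + 1) : ℕ) : ℝ) := by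
              rw [← h4]
              linarith
          _ = ((4 * (h + 1) ^ (C + 1) : ℕ) : ℝ) := by push_cast; ring
          _ ≤ _ := Nat.cast_le.2 h5
      have h2 : 2 ^ (2 * τ) ≤ 2 ^ (2 * j) := by exact_mod_cast h1
      have h3 := (Nat.pow_le_pow_iff_right (by norm_num : 1 < 2)).1 h2
      omega
    have hT' : ∀ x, S (value x (top d j)) = true →
        ∃ l, P.IsComp x l true ∧ l.length ≤ 2 ^ τ := by
      intro x hx
      obtain ⟨l, h1, h2⟩ := hT x hx
      exact ⟨l, h1, (Nat.le_floor h2).trans hτ1.le⟩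
    have hH : ((h : ℝ) + 1) ^ (4 : ℕ) = ((h : ℝ) + 1) ^ (4 : ℝ) := by
      rw [← Real.rpow_natCast]
      norm_num
    have hE : ((h : ℝ) + 1) ^ (4 * θ * ((C : ℝ) + 1)) * ((h : ℝ) + 1) ^ (4 : ℕ) =
        ((h : ℝ) + 1) ^ (4 + 4 * θ * ((C : ℝ) + 1)) := by
      rw [hH, ← Real.rpow_add hx]
      congr 1
      ring
    have c1 : (16 * 4 ^ τ * (h + 1) ^ 4) ^ (m + 1) ≤ k ^ m := by
      have h1 : (((16 * 4 ^ τ * (h + 1) ^ 4) ^ (m + 1) : ℕ) : ℝ) ≤ ((k ^ m : ℕ) : ℝ) := by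
        have h2 : ((16 * 4 ^ τ * (h + 1) ^ 4 : ℕ) : ℝ) ≤
            64 * ((h : ℝ) + 1) ^ (4 + 4 * θ * ((C : ℝ) + 1)) := by
          rw [← hE]
          calc ((16 * 4 ^ τ * (h + 1) ^ 4 : ℕ) : ℝ) =
                16 * ((4 ^ τ : ℕ) : ℝ) * ((h : ℝ) + 1) ^ (4 : ℕ) := by push_cast; ring
            _ ≤ 16 * (4 * ((h : ℝ) + 1) ^ (4 * θ * ((C : ℝ) + 1))) *
                ((h : ℝ) + 1) ^ (4 : ℕ) :=
                mul_le_mul_of_nonneg_right (mul_le_mul_of_nonneg_left hτ3 (by norm_num))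
                  (by positivity)
            _ = _ := by ring
        rw [Nat.cast_pow]
        refine (pow_le_pow_left₀ (Nat.cast_nonneg _) h2 _).trans (g1.trans (le_of_eq ?_))
        rw [hkn]
        push_cast
        rw [pow_mul]
      exact_mod_cast h1
    have c2 : 32 * 4 ^ τ * (h + 1) ^ 2 < k := by
      have h1 : ((32 * 4 ^ τ * (h + 1) ^ 2 : ℕ) : ℝ) < (k : ℝ) := by
        calc ((32 * 4 ^ τ * (h + 1) ^ 2 : ℕ) : ℝ) =
              32 * ((4 ^ τ : ℕ) : ℝ) * ((h : ℝ) + 1) ^ (2 : ℕ) := by push_cast; ring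
          _ ≤ 32 * (4 * ((h : ℝ) + 1) ^ (4 * θ * ((C : ℝ) + 1))) * ((h : ℝ) + 1) ^ (4 : ℕ) := by
              refine mul_le_mul (mul_le_mul_of_nonneg_left hτ3 (by norm_num)) ?_ (by positivity)
                (by positivity)
              exact pow_le_pow_right₀ hx1 (by norm_num)
          _ = 128 * (((h : ℝ) + 1) ^ (4 * θ * ((C : ℝ) + 1)) * ((h : ℝ) + 1) ^ (4 : ℕ)) := by
              ring
          _ = 128 * ((h : ℝ) + 1) ^ (4 + 4 * θ * ((C : ℝ) + 1)) := by rw [hE]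
          _ < ((h : ℝ) + 1) ^ C := g2
          _ = (k : ℝ) := by rw [hkn]; push_cast; rfl
      exact_mod_cast h1
    have hV2 : Fintype.card (bfly d ((j + 1) * d)).V + 1 ≤ 2 * n ^ 2 := by
      have : 1 ≤ n ^ 2 := Nat.one_le_pow _ _ (by omega)
      omega
    have hs0 : (0 : ℝ) < P.size := by
      have : 0 < P.size := Nat.succ_pos _
      exact_mod_cast this
    have hs1 : (1 : ℝ) ≤ P.size := by
      have : 1 ≤ P.size := Nat.succ_pos _
      exact_mod_cast this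
    set s := ⌈Real.logb 2 P.size⌉₊ with hs
    have hL0 : 0 ≤ Real.logb 2 P.size := Real.logb_nonneg (by norm_num) hs1
    have hsize : P.size ≤ 2 ^ s := by
      have h2 : (P.size : ℝ) ≤ (2 : ℝ) ^ (s : ℝ) := by
        rw [← Real.logb_le_iff_le_rpow (by norm_num) hs0]
        exact Nat.le_ceil _
      rw [Real.rpow_natCast] at h2
      exact_mod_cast h2
    have h1 := law_short (m := m) (s := s) hP hSa hSδ hT' hsize hτj (by
        refine le_trans (Nat.pow_le_pow_left ?_ _) c1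
        rw [hh] at hV hV2
        calc 8 * 4 ^ τ * Fintype.card (bfly d ((j + 1) * d)).V *
            (Fintype.card (bfly d ((j + 1) * d)).V + 1)
            ≤ 8 * 4 ^ τ * (h + 1) ^ 2 * (2 * (h + 1) ^ 2) :=
              Nat.mul_le_mul (Nat.mul_le_mul_left _ hV) hV2
          _ = 16 * 4 ^ τ * (h + 1) ^ 4 := by ring) (by
        refine lt_of_le_of_lt ?_ c2
        rw [hh] at hV2
        calc 16 * 4 ^ τ * (Fintype.card (bfly d ((j + 1) * d)).V + 1)
            ≤ 16 * 4 ^ τ * (2 * (h + 1) ^ 2) := Nat.mul_le_mul_left _ hV2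
          _ = 32 * 4 ^ τ * (h + 1) ^ 2 := by ring)
    rw [hn, hκ] at h1
    rw [hlogk, hnR]
    have h2 : (n : ℝ) ≤ 11 * (((m : ℝ) + 1) * (3 + ((2 * s / (C * d) : ℕ) : ℝ))) := by
      have h3 : ((n : ℕ) : ℝ) ≤ ((11 * ((m + 1) * (3 + 2 * s / (C * d))) : ℕ) : ℝ) :=
        Nat.cast_le.2 h1.le
      rw [Nat.cast_mul, Nat.cast_mul, Nat.cast_add, Nat.cast_add] at h3
      exact_mod_cast h3
    refine space_est (s := (s : ℝ)) (q := ((2 * s / (C * d) : ℕ) : ℝ))
      (by linarith [Nat.cast_nonneg (α := ℝ) m]) hκR ?_ h2 ?_ ?_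
    · have h3 : 88 * (m + 1) ≤ n := by omega
      exact_mod_cast h3
    · have h3 := Nat.cast_div_le (α := ℝ) (m := 2 * s) (n := C * d)
      push_cast at h3 ⊢
      exact h3
    · exact (Nat.ceil_lt_add_one hL0).le
  · obtain ⟨P, h1, h2, h3, h4⟩ := upperB d j k hk1 S
    have hVc : ((j + 1) * d + 1) * 2 ^ d ≤ n ^ 2 := by
      have := hV
      rwa [card_V] at this
    refine ⟨P, h1, h2, fun x l R hl => ?_, ?_⟩
    · obtain ⟨h5, h6⟩ := h3 x l R hl
      refine ⟨?_, h6⟩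
      have h7 : (l.length : ℝ) ≤ ((n : ℝ)) ^ (2 : ℝ) := by
        rw [h5]
        have : ((((j + 1) * d + 1) * 2 ^ d : ℕ) : ℝ) ≤ ((n ^ 2 : ℕ) : ℝ) := Nat.cast_le.2 hVc
        refine this.trans (le_of_eq ?_)
        push_cast
        norm_num
      refine h7.trans ?_
      have h8 : (((n : ℝ)) ^ (2 * (C : ℝ))) ≤ N := by
        calc (((n : ℝ)) ^ (2 * (C : ℝ))) = (((n ^ C) ^ 2 : ℕ) : ℝ) := by
              rw [← pow_mul, Nat.cast_pow, ← Real.rpow_natCast]
              push_cast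
              congr 1
              ring
          _ ≤ N := by
              have : (n ^ C) ^ 2 ≤ N := by rw [hh, ← hkn]; exact hkN
              exact_mod_cast this
      have hnn : (1 : ℝ) ≤ n := by rw [hnx]; exact hx1
      calc ((n : ℝ)) ^ (2 : ℝ) ≤ (n : ℝ) ^ (2 * (C : ℝ) * δ) := by
            refine Real.rpow_le_rpow_of_exponent_le hnn ?_
            rw [div_le_iff₀ hC0] at hCδ
            nlinarith
        _ = ((n : ℝ) ^ (2 * (C : ℝ))) ^ δ := Real.rpow_mul (by linarith) _ _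
        _ ≤ (N : ℝ) ^ δ := Real.rpow_le_rpow (Real.rpow_nonneg (by linarith) _) h8 hδ.le
    · have hs0 : (0 : ℝ) < P.size := by
        have : 0 < P.size := Nat.succ_pos _
        exact_mod_cast this
      have h5 : P.size ≤ 2 * (n ^ 2 * k ^ (2 * n)) := by
        rw [h4, hn]
        have h6 : 1 ≤ k ^ (2 * n) := Nat.one_le_pow _ _ hk1
        have h7 : 1 ≤ n ^ 2 := Nat.one_le_pow _ _ (by omega)
        rw [hn] at hVc
        have h8 : ((j + 1) * d + 1) * n * k ^ (2 * n) ≤ n ^ 2 * k ^ (2 * n) :=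
          Nat.mul_le_mul_right _ hVc
        have h9 : 4 ≤ n := by
          rw [← hn]
          calc 4 = 2 ^ 2 := rfl
            _ ≤ 2 ^ d := Nat.pow_le_pow_right (by norm_num) hd2
        have h10 : 2 ≤ n ^ 2 * k ^ (2 * n) := by
          calc 2 ≤ n ^ 2 * 1 := by nlinarith
            _ ≤ n ^ 2 * k ^ (2 * n) := Nat.mul_le_mul_left _ h6
        omega
      have hkR : (0 : ℝ) < k := by exact_mod_cast hk1
      have hn0 : (0 : ℝ) < n := by rw [hnx]; exact hx
      have h6 : Real.logb 2 P.size ≤ 1 + (2 * d + 2 * n * Real.logb 2 k) := by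
        have h7 : (P.size : ℝ) ≤ 2 * ((n : ℝ) ^ 2 * (k : ℝ) ^ (2 * n)) := by
          calc (P.size : ℝ) ≤ ((2 * (n ^ 2 * k ^ (2 * n)) : ℕ) : ℝ) := Nat.cast_le.2 h5
            _ = _ := by push_cast; ring
        refine (Real.logb_le_logb_of_le (by norm_num) hs0 h7).trans (le_of_eq ?_)
        have h9 : Real.logb 2 n = d := by
          rw [← hnR, Real.logb_pow, Real.logb_self_eq_one (by norm_num), mul_one]
        rw [Real.logb_mul (by norm_num) (by positivity), Real.logb_self_eq_one (by norm_num),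
          Real.logb_mul (by positivity) (by positivity), Real.logb_pow, Real.logb_pow, h9]
        push_cast
        ring
      rw [hnR]
      refine h6.trans ?_
      rw [hlogk]
      have h7 : (2 : ℝ) ≤ d := by exact_mod_cast hd2
      have h8 : (5 : ℝ) ≤ C := by exact_mod_cast hC5
      have h9 : (1 : ℝ) ≤ n := by rw [hnx]; exact hx1
      have h10 : 5 * (d : ℝ) ≤ C * d := mul_le_mul_of_nonneg_right h8 (by linarith)
      have h11 : (C : ℝ) * d ≤ n * (C * d) := le_mul_of_one_le_left (by positivity) h9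
      linarith

end Pool.Agent.TH679.TS
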