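import Pool.Agent.TH679.TS.Count

/-!
A deterministic program which evaluates the nodes in a topological order and stores the values in
few cells
-/

set_option autoImplicit false

namespace Pool.Agent.TH679.TS

open Finset
open Pool.Agent.H554R2.Thrifty (BP)
open Pool.Agent.W994.DE (Dag Trav trav_congr isComp_iff exists_nodup pt)
open Pool.Agent.W994.DE.Dag
open Pool.Agent.TH679.PD

section General

variable {G : Dag} {k : ℕ} {C : Type} [Fintype C] [DecidableEq C]

/-- The next state, if the value `c` was read in the state `q`. -/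
def nxt {N : ℕ} (e : Fin N → G.V) (cell : G.V → C) (r : G.V) (S : Fin k → Bool)
    (q : Fin N × (C → Fin k)) (c : Fin k) : (Fin N × (C → Fin k)) ⊕ Bool :=
  if h : q.1.val + 1 < N then
    Sum.inl (⟨q.1.val + 1, h⟩, Function.update q.2 (cell (e q.1)) c)
  else Sum.inr (S (Function.update q.2 (cell (e q.1)) c (cell r)))

/-- The program: the memory consists of the cells `C`, the value of the node `i` is stored in the
cell `cell i`. -/
noncomputable def prog (N : ℕ) (hN : 0 < N) (e : Fin N → G.V) (cell : G.V → C) (r : G.V)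
    (S : Fin k → Bool) (a₀ : Fin k) : BP (G.Var k) k where
  State := Fin N × (C → Fin k)
  start := (⟨0, hN⟩, fun _ => a₀)
  query := fun q => ⟨e q.1, fun s => q.2 (cell (G.kid (e q.1) s))⟩
  edge := fun q c t => t = nxt e cell r S q c

/-- The node in the position `a` is needed after the step `b`. -/
def Alive {N : ℕ} (e : Fin N → G.V) (r : G.V) (a : Fin N) (b : ℕ) : Prop :=
  a.val < b ∧ (e a = r ∨ ∃ c : Fin N, b ≤ c.val ∧ ∃ s, G.kid (e c) s = e a)

theorem prog_spec {N : ℕ} {hN : 0 < N} {e : Fin N → G.V} {cell : G.V → C} {r : G.V}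
    {S : Fin k → Bool} {a₀ : Fin k} (he : Function.Bijective e)
    (hord : ∀ b a, ∃ c, c < b ∧ e c = G.kid (e b) a)
    (hcell : ∀ a b : Fin N, Alive e r a (b.val + 1) → a < b → cell (e a) ≠ cell (e b))
    (x : G.Var k → Fin k) :
    ∀ (m : ℕ) (b : Fin N) (u : C → Fin k), b.val + m + 1 = N →
      (∀ c, Alive e r c b.val → u (cell (e c)) = value x (e c)) →
      (∃ l, Trav (prog N hN e cell r S a₀) x l (Sum.inl (b, u))
        (Sum.inr (S (value x r)))) ∧
      ∀ l R, Trav (prog N hN e cell r S a₀) x l (Sum.inl (b, u)) (Sum.inr R) →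
        R = S (value x r) ∧ l.length = m + 1 ∧
        ∀ q ∈ l, Relevant x ((prog N hN e cell r S a₀).query q) := by
  classical
  -- the values of the children
  have hkids : ∀ (b : Fin N) (u : C → Fin k),
      (∀ c, Alive e r c b.val → u (cell (e c)) = value x (e c)) →
      (fun s => u (cell (G.kid (e b) s))) = kidVal (value x) (e b) := by
    intro b u hu
    funext s
    obtain ⟨c, h1, h2⟩ := hord b s
    show u (cell (G.kid (e b) s)) = value x (G.kid (e b) s)
    rw [← h2]
    exact hu c ⟨h1, Or.inr ⟨b, le_rfl, s, h2.symm⟩⟩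
  -- the memory after the step
  have hstep : ∀ (b : Fin N) (u : C → Fin k),
      (∀ c, Alive e r c b.val → u (cell (e c)) = value x (e c)) →
      ∀ c, Alive e r c (b.val + 1) →
        Function.update u (cell (e b)) (x ⟨e b, fun s => u (cell (G.kid (e b) s))⟩) (cell (e c)) =
          value x (e c) := by
    intro b u hu c hc
    rw [hkids b u hu]
    by_cases hcb : c = b
    · rw [hcb, Function.update_self, value_eq]
    · have h1 : c.val ≠ b.val := fun h => hcb (Fin.ext h)
      have h2 : c < b := by
        rw [Fin.lt_def]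
        have := hc.1
        omega
      rw [Function.update_of_ne (hcell c b hc h2)]
      refine hu c ⟨h2, ?_⟩
      rcases hc.2 with h | ⟨c', h3, h4⟩
      · exact Or.inl h
      · exact Or.inr ⟨c', by omega, h4⟩
  intro m
  induction m with
  | zero =>
    intro b u hb hu
    have hval : Function.update u (cell (e b)) (x ⟨e b, fun s => u (cell (G.kid (e b) s))⟩)
        (cell r) = value x r := by
      obtain ⟨c, hc⟩ := he.2 r
      have := hstep b u hu c ⟨by have := c.isLt; omega, Or.inl hc⟩
      rw [hc] at this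
      exact this
    have hrel : Relevant x ((prog N hN e cell r S a₀).query (b, u)) := hkids b u hu
    have hedge : ∀ t, (prog N hN e cell r S a₀).edge (b, u)
        (x ((prog N hN e cell r S a₀).query (b, u))) t ↔ t = Sum.inr (S (value x r)) := by
      intro t
      have h1 : ¬ (b.val + 1 < N) := by omega
      have h2 : nxt e cell r S (b, u) (x ⟨e b, fun s => u (cell (G.kid (e b) s))⟩) =
          Sum.inr (S (value x r)) := by
        rw [nxt, dif_neg h1, hval]
      exact ⟨fun h => h.trans h2, fun h => h.trans h2.symm⟩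
    refine ⟨⟨[(b, u)], rfl, _, (hedge _).mpr rfl, rfl⟩, ?_⟩
    intro l R hl
    cases l with
    | nil => exact absurd hl (by simp [Trav])
    | cons q l =>
      obtain ⟨h1, t, h2, h3⟩ := hl
      have h4 : q = (b, u) := (Sum.inl_injective h1).symm
      subst h4
      rw [hedge] at h2
      subst h2
      cases l with
      | nil =>
        refine ⟨(Sum.inr_injective h3).symm, rfl, ?_⟩
        intro q hq
        have hq' := List.mem_singleton.mp hq
        subst hq'
        exact hrel
      | cons q' l => exact absurd h3.1 (by simp)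
  | succ m ih =>
    intro b u hb hu
    have hb1 : b.val + 1 < N := by omega
    have hrel : Relevant x ((prog N hN e cell r S a₀).query (b, u)) := hkids b u hu
    have hedge : ∀ t, (prog N hN e cell r S a₀).edge (b, u)
        (x ((prog N hN e cell r S a₀).query (b, u))) t ↔
        t = Sum.inl (⟨b.val + 1, hb1⟩,
          Function.update u (cell (e b)) (x ⟨e b, fun s => u (cell (G.kid (e b) s))⟩)) := by
      intro t
      have h2 : nxt e cell r S (b, u) (x ⟨e b, fun s => u (cell (G.kid (e b) s))⟩) =
          Sum.inl (⟨b.val + 1, hb1⟩,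
            Function.update u (cell (e b)) (x ⟨e b, fun s => u (cell (G.kid (e b) s))⟩)) := by
        rw [nxt, dif_pos hb1]
      exact ⟨fun h => h.trans h2, fun h => h.trans h2.symm⟩
    obtain ⟨⟨l, hl⟩, h2⟩ := ih ⟨b.val + 1, hb1⟩
      (Function.update u (cell (e b)) (x ⟨e b, fun s => u (cell (G.kid (e b) s))⟩))
      (by simp only; omega) (hstep b u hu)
    refine ⟨⟨(b, u) :: l, rfl, _, (hedge _).mpr rfl, hl⟩, ?_⟩
    intro l R hl
    cases l with
    | nil => exact absurd hl (by simp [Trav])
    | cons q l =>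
      obtain ⟨h1, t, h3, h4⟩ := hl
      have h5 : q = (b, u) := (Sum.inl_injective h1).symm
      subst h5
      rw [hedge] at h3
      subst h3
      obtain ⟨h6, h7, h8⟩ := h2 l R h4
      refine ⟨h6, congrArg (· + 1) h7, ?_⟩
      intro q hq
      rcases List.mem_cons.mp hq with hq | hq
      · subst hq; exact hrel
      · exact h8 q hq

/-- A deterministic program which reads only relevant variables, one for each node, and stores the
values in the cells. -/
theorem upperCells (k : ℕ) (hk : 1 ≤ k) {N : ℕ} (hN : 0 < N) {e : Fin N → G.V} {cell : G.V → C}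
    (r : G.V) (S : Fin k → Bool) (he : Function.Bijective e)
    (hord : ∀ b a, ∃ c, c < b ∧ e c = G.kid (e b) a)
    (hcell : ∀ a b : Fin N, Alive e r a (b.val + 1) → a < b → cell (e a) ≠ cell (e b)) :
    ∃ P : BP (G.Var k) k,
    P.Deterministic ∧ P.Solves (fun x => S (value x r)) ∧
    (∀ x l R, P.IsComp x l R → l.length = N ∧ ∀ q ∈ l, Relevant x (P.query q)) ∧
    P.size = N * k ^ Fintype.card C + 2 := by
  classical
  obtain ⟨a₀⟩ : Nonempty (Fin k) := ⟨⟨0, hk⟩⟩
  have hsp := fun x => prog_spec (hN := hN) (S := S) (a₀ := a₀) he hord hcell x (N - 1)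
    ⟨0, hN⟩ (fun _ => a₀) (by simp only; omega)
    (fun c hc => absurd hc.1 (Nat.not_lt_zero _))
  refine ⟨prog N hN e cell r S a₀, ?_, ?_, ?_, ?_⟩
  · intro q c
    exact ⟨_, rfl, fun t ht => ht⟩
  · intro x
    obtain ⟨⟨l, hl⟩, h2⟩ := hsp x
    exact ⟨⟨l, isComp_iff.mpr hl⟩, fun l R h => (h2 l R (isComp_iff.mp h)).1⟩
  · intro x l R h
    obtain ⟨h1, h2, h3⟩ := (hsp x).2 l R (isComp_iff.mp h)
    exact ⟨by rw [h2]; omega, h3⟩
  · show Fintype.card (Fin N × (C → Fin k)) + 2 = _
    rw [Fintype.card_prod, Fintype.card_fin, Fintype.card_fun, Fintype.card_fin]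

end General

section Bfly

variable {d : ℕ} [NeZero d]

theorem card_word (d : ℕ) : Fintype.card (Fin d → Bool) = 2 ^ d := by
  rw [Fintype.card_fun, Fintype.card_fin, Fintype.card_bool]

/-- the order of the nodes: level by level -/
noncomputable def ord (d H : ℕ) [NeZero d] : Fin ((H + 1) * 2 ^ d) → (bfly d H).V := fun a =>
  ((finProdFinEquiv.symm a).1, (Fintype.equivFinOfCardEq (card_word d)).symm
    (finProdFinEquiv.symm a).2)

theorem ord_bij (d H : ℕ) [NeZero d] : Function.Bijective (ord d H) := by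
  have h : ord d H = (finProdFinEquiv.symm.trans
      ((Equiv.refl (Fin (H + 1))).prodCongr (Fintype.equivFinOfCardEq (card_word d)).symm)) := rfl
  rw [h]
  exact Equiv.bijective _

theorem ord_val {H : ℕ} (a : Fin ((H + 1) * 2 ^ d)) :
    ∃ v : ℕ, v < 2 ^ d ∧ a.val = v + 2 ^ d * (ord d H a).1.val ∧
      (Fintype.equivFinOfCardEq (card_word d) (ord d H a).2).val = v := by
  refine ⟨(finProdFinEquiv.symm a).2.val, (finProdFinEquiv.symm a).2.isLt, ?_, ?_⟩
  · conv_lhs => rw [← finProdFinEquiv.apply_symm_apply a]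
    rw [finProdFinEquiv_apply_val]
    rfl
  · show (Fintype.equivFinOfCardEq (card_word d)
      ((Fintype.equivFinOfCardEq (card_word d)).symm (finProdFinEquiv.symm a).2)).val = _
    rw [Equiv.apply_symm_apply]

theorem ord_lt {H : ℕ} {a b : Fin ((H + 1) * 2 ^ d)}
    (h : (ord d H a).1.val < (ord d H b).1.val) : a < b := by
  obtain ⟨v, h1, h2, _⟩ := ord_val a
  obtain ⟨v', h1', h2', _⟩ := ord_val b
  rw [Fin.lt_def, h2, h2']
  have h3 : 2 ^ d * ((ord d H a).1.val + 1) ≤ 2 ^ d * (ord d H b).1.val :=
    Nat.mul_le_mul_left _ h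
  have h4 : 2 ^ d * ((ord d H a).1.val + 1) = 2 ^ d * (ord d H a).1.val + 2 ^ d := by ring
  omega

theorem ord_le {H : ℕ} {a b : Fin ((H + 1) * 2 ^ d)} (h : a ≤ b) :
    (ord d H a).1.val ≤ (ord d H b).1.val := by
  by_contra hno
  exact absurd (ord_lt (not_le.1 hno)) (not_lt.2 h)

/-- the cell of a node: the parity of its level, and its word -/
def cellB (d H : ℕ) [NeZero d] (v : (bfly d H).V) : Bool × (Fin d → Bool) :=
  (decide (v.1.val % 2 = 0), v.2)

/-- the deterministic program which evaluates a butterfly level by level -/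
theorem upperB (d j k : ℕ) [NeZero d] (hk : 1 ≤ k) (S : Fin k → Bool) :
    ∃ P : BP ((bfly d ((j + 1) * d)).Var k) k,
    P.Deterministic ∧ P.Solves (fun x => S (value x (top d j))) ∧
    (∀ x l R, P.IsComp x l R →
      l.length = ((j + 1) * d + 1) * 2 ^ d ∧ ∀ q ∈ l, Relevant x (P.query q)) ∧
    P.size = ((j + 1) * d + 1) * 2 ^ d * k ^ (2 * 2 ^ d) + 2 := by
  classical
  have h := upperCells (G := bfly d ((j + 1) * d)) k hk
    (N := ((j + 1) * d + 1) * 2 ^ d) (by positivity) (e := ord d ((j + 1) * d))
    (cell := cellB d ((j + 1) * d)) (top d j) S (ord_bij _ _) ?_ ?_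
  · rw [Fintype.card_prod, Fintype.card_bool, card_word] at h
    exact h
  · intro b s
    obtain ⟨c, hc⟩ := (ord_bij d ((j + 1) * d)).2
      ((bfly d ((j + 1) * d)).kid (ord d ((j + 1) * d) b) s)
    refine ⟨c, ord_lt ?_, hc⟩
    rw [hc]
    exact (bfly d ((j + 1) * d)).rank_lt _ s
  · intro a b hal hab heq
    have h1 : decide ((ord d ((j + 1) * d) a).1.val % 2 = 0) =
        decide ((ord d ((j + 1) * d) b).1.val % 2 = 0) :=
      congrArg (fun c : Bool × (Fin d → Bool) => c.1) heq
    have h2 : (ord d ((j + 1) * d) a).2 = (ord d ((j + 1) * d) b).2 :=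
      congrArg (fun c : Bool × (Fin d → Bool) => c.2) heq
    rw [decide_eq_decide] at h1
    have h3 := ord_le hab.le
    have h4 : (ord d ((j + 1) * d) b).1.val ≤ (ord d ((j + 1) * d) a).1.val + 1 := by
      rcases hal.2 with h | ⟨c, hc, s, hs⟩
      · have h5 : (ord d ((j + 1) * d) a).1.val = (j + 1) * d := by rw [h]; rfl
        have h6 := (ord d ((j + 1) * d) b).1.isLt
        omega
      · have h5 : (ord d ((j + 1) * d) a).1.val = (ord d ((j + 1) * d) c).1.val - 1 := by
          rw [← hs]; rfl
        have h6 := ord_le (d := d) (H := (j + 1) * d) (a := b) (b := c) (by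
          rw [Fin.le_def]; omega)
        omega
    have h5 : (ord d ((j + 1) * d) a).1.val = (ord d ((j + 1) * d) b).1.val := by omega
    have h6 : ord d ((j + 1) * d) a = ord d ((j + 1) * d) b := Prod.ext (Fin.ext h5) h2
    have h7 := (ord_bij d ((j + 1) * d)).1 h6
    rw [h7] at hab
    exact lt_irrefl _ hab

end Bfly

end Pool.Agent.TH679.TS
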