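import Pool.Agent.TH679.TS.Long
import Pool.Agent.W994.DE.NdCount

/-!
Nondeterministic programs for stacks of butterfly networks: counting
-/

set_option autoImplicit false

namespace Pool.Agent.TH679.TS

open Finset
open Pool.Agent.H554R2.Thrifty (BP)
open Pool.Agent.W994.DE (Dag Trav trav_congr isComp_iff exists_nodup pt)
open Pool.Agent.W994.DE.Dag
open Pool.Agent.TH679.PD

section Ham

variable {V : Type} [Fintype V] [DecidableEq V] {k : ℕ}

theorem pi_card' (D : Finset V) (w₀ : V → Fin k) (δ : Fin k) :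
    (Fintype.piFinset fun i => if i ∈ D then (univ : Finset (Fin k)).erase δ else {w₀ i}).card =
      (k - 1) ^ D.card := by
  rw [Fintype.card_piFinset]
  calc ∏ i, (if i ∈ D then (univ : Finset (Fin k)).erase δ else {w₀ i}).card
      = ∏ i, (if i ∈ D then k - 1 else 1) := by
        refine prod_congr rfl fun i _ => ?_
        split
        · rw [card_erase_of_mem (mem_univ _), card_univ, Fintype.card_fin]
        · exact card_singleton _
    _ = (k - 1) ^ D.card := by
        rw [prod_ite_mem, univ_inter, prod_const]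

/-- Functions which differ from `w₀` in at most `e` places of `J`. -/
theorem ham_card' (hk : 1 ≤ k - 1) (δ : Fin k) {K : Finset (V → Fin k)} {J : Finset V} {e : ℕ}
    {w₀ : V → Fin k}
    (h : ∀ w ∈ K, (∀ i, w i ≠ δ) ∧ (∀ i, i ∉ J → w i = w₀ i) ∧
      (J.filter fun j => w j ≠ w₀ j).card ≤ e) :
    K.card ≤ 2 ^ J.card * (k - 1) ^ e := by
  classical
  have hsub : K ⊆ (J.powerset.filter fun D => D.card ≤ e).biUnion
      (fun D => Fintype.piFinset fun i =>
        if i ∈ D then (univ : Finset (Fin k)).erase δ else {w₀ i}) := by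
    intro w hw
    obtain ⟨h0, h1, h2⟩ := h w hw
    rw [mem_biUnion]
    refine ⟨J.filter fun j => w j ≠ w₀ j, mem_filter.mpr ⟨mem_powerset.mpr (filter_subset _ _),
      h2⟩, Fintype.mem_piFinset.mpr fun i => ?_⟩
    split
    · exact mem_erase.2 ⟨h0 i, mem_univ _⟩
    · rename_i h3
      rw [mem_filter, not_and_or, not_not] at h3
      rw [mem_singleton]
      exact h3.elim (h1 i) id
  calc K.card ≤ _ := card_le_card hsub
    _ ≤ (J.powerset.filter fun D => D.card ≤ e).card * (k - 1) ^ e := by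
        refine card_biUnion_le_card_mul _ _ _ fun D hD => ?_
        rw [pi_card']
        exact Nat.pow_le_pow_right hk (mem_filter.mp hD).2
    _ ≤ 2 ^ J.card * (k - 1) ^ e := by
        refine Nat.mul_le_mul_right _ ((card_filter_le _ _).trans ?_)
        rw [card_powerset]

theorem fiber_card' (hk : 1 ≤ k - 1) (δ : Fin k) {F : Finset (V → Fin k)} {J : Finset V} {e : ℕ}
    (h0 : ∀ w ∈ F, ∀ i, w i ≠ δ)
    (h : ∀ w ∈ F, ∀ z ∈ F, (∀ i, i ∉ J → w i = z i) → (J.filter fun j => w j ≠ z j).card ≤ e) :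
    F.card ≤ 2 ^ J.card * (k - 1) ^ e * (k - 1) ^ (Fintype.card V - J.card) := by
  classical
  let f : (V → Fin k) → (V → Fin k) := fun w i => if i ∈ J then δ else w i
  have h1 := card_le_mul_card_image (f := f) F (2 ^ J.card * (k - 1) ^ e) (by
    intro g hg
    obtain ⟨w₀, hw₀, rfl⟩ := mem_image.mp hg
    refine ham_card' hk δ (w₀ := w₀) fun w hw => ?_
    obtain ⟨hwF, hwf⟩ := mem_filter.mp hw
    have hoff : ∀ i, i ∉ J → w i = w₀ i := by
      intro i hi
      have := congrFun hwf i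
      simpa only [f, if_neg hi] using this
    exact ⟨h0 w hwF, hoff, h w hwF w₀ hw₀ hoff⟩)
  refine h1.trans (Nat.mul_le_mul_left _ ?_)
  have h2 : F.image f ⊆
      Fintype.piFinset fun i => if i ∈ Jᶜ then (univ : Finset (Fin k)).erase δ else {δ} := by
    intro g hg
    obtain ⟨w, hw, rfl⟩ := mem_image.mp hg
    refine Fintype.mem_piFinset.mpr fun i => ?_
    split
    · rename_i h3
      rw [mem_compl] at h3
      refine mem_erase.2 ⟨?_, mem_univ _⟩
      simp only [f, if_neg h3]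
      exact h0 w hw i
    · rename_i h3
      rw [mem_compl, not_not] at h3
      rw [mem_singleton]
      exact if_pos h3
  refine (card_le_card h2).trans ?_
  rw [pi_card' (Jᶜ) (fun _ => δ), card_compl]

end Ham

variable {d : ℕ} [NeZero d]

theorem deg_le (H : ℕ) (i : (bfly d H).V) : (bfly d H).deg i ≤ 2 := by
  show (if i.1.val = 0 then 0 else 2) ≤ 2
  split <;> omega

theorem card_V (H : ℕ) : Fintype.card (bfly d H).V = (H + 1) * 2 ^ d := by
  show Fintype.card (Fin (H + 1) × (Fin d → Bool)) = _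
  rw [Fintype.card_prod, Fintype.card_fin, Fintype.card_fun, Fintype.card_fin, Fintype.card_bool]

theorem card_blk (H i : ℕ) : (blk d H i).card ≤ d * 2 ^ d := by
  have h : (blk d H i).card ≤
      ((Ico (i * d) ((i + 1) * d)) ×ˢ (univ : Finset (Fin d → Bool))).card := by
    refine Finset.card_le_card_of_injOn (fun v => (v.1.val, v.2)) ?_ ?_
    · intro v hv
      obtain ⟨h1, h2⟩ := mem_blk.1 hv
      rw [mem_coe, mem_product, mem_Ico]
      exact ⟨⟨h1, h2⟩, mem_univ _⟩
    · intro v _ v' _ h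
      simp only [Prod.mk.injEq] at h
      exact Prod.ext (Fin.ext h.1) h.2
  refine h.trans (le_of_eq ?_)
  rw [card_product, card_univ, Fintype.card_fun, Fintype.card_fin, Fintype.card_bool, Nat.card_Ico]
  congr 1
  have : (i + 1) * d = i * d + d := by ring
  omega

variable {j k t : ℕ} {P : BP ((bfly d ((j + 1) * d)).Var k) k} {S : Fin k → Bool} {a₀ δ : Fin k}

theorem exists_interval' (hP : Decides P (top d j) S) (hδ : S δ = false)
    {w : (bfly d ((j + 1) * d)).V → Fin k} (hw : ∀ i, w i ≠ δ) {l : List P.State}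
    (hl : P.IsComp (inp w δ) l true) {p : ℕ} (hp : 1 ≤ p) (hn : 8 * p ≤ 2 ^ d)
    (hlen : l.length < 2 ^ j * (2 * p)) :
    ∃ a b i, a ≤ b ∧ i < j ∧
      p < (Mis (rd P (top d j) w l) a b ∩ blk d ((j + 1) * d) i).card := by
  refine exists_gap (T := l.length) (rd_card w l) ?_ ?_ hp hn hlen
  · rw [eq_empty_iff_forall_notMem]
    intro v hv
    obtain ⟨h0, i, hi, s, hs⟩ := mem_Mis.mp hv
    obtain ⟨τ, h1, h2, h3⟩ := mem_M.mp hi
    obtain ⟨h4, _⟩ := mem_rd.mp h3
    have h5 : (bfly d ((j + 1) * d)).Below (top d j) v := hs ▸ h4.kid s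
    obtain ⟨q, hq, hq'⟩ := reads_all hP hδ hw hl h5
    obtain ⟨a, ha, haq⟩ := List.getElem_of_mem hq
    exact h0 (mem_M.mpr ⟨a, Nat.zero_le _, ha, mem_rd.mpr ⟨h5, q, by
      rw [List.getElem?_eq_getElem ha, haq], hq'⟩⟩)
  · have h5 : (bfly d ((j + 1) * d)).Below (top d j) (top d j) := Relation.ReflTransGen.refl
    obtain ⟨q, hq, hq'⟩ := reads_all hP hδ hw hl h5
    obtain ⟨a, ha, haq⟩ := List.getElem_of_mem hq
    exact mem_M.mpr ⟨a, Nat.zero_le _, ha, mem_rd.mpr ⟨h5, q, by
      rw [List.getElem?_eq_getElem ha, haq], hq'⟩⟩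

/-- The main counting inequality. -/
theorem count (hP : Decides P (top d j) S) (hW : Waste P t) (hSa : S a₀ = true)
    (hSδ : S δ = false) {p m : ℕ} (hp : 1 ≤ p) (hn : 8 * p ≤ 2 ^ d)
    (hT : ∀ x, S (value x (top d j)) = true →
      ∃ l, P.IsComp x l true ∧ l.length < 2 ^ j * (2 * p))
    (hm : m + 2 * t ≤ p + 1) :
    (k - 1) ^ (Fintype.card (bfly d ((j + 1) * d)).V - 1) ≤
      2 ^ m * (k - 1) ^ (2 * t) * (k - 1) ^ (Fintype.card (bfly d ((j + 1) * d)).V - m) *
        (P.size * P.size * (j * (d * 2 ^ d).choose m)) := by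
  classical
  have hδ : a₀ ≠ δ := fun h => by rw [h, hSδ] at hSa; exact absurd hSa (by simp)
  have hk : 1 ≤ k - 1 := by
    have h1 := a₀.isLt
    have h2 := δ.isLt
    have h3 : a₀.val ≠ δ.val := fun h => hδ (Fin.ext h)
    omega
  have : Nonempty ((bfly d ((j + 1) * d)).Var k) := ⟨⟨top d j, fun _ => a₀⟩⟩
  have hd : ∀ i, (bfly d ((j + 1) * d)).deg i ≤ 2 := deg_le _
  -- choose short accepting computations
  have hcomp : ∀ w ∈ vals (top d j) a₀ δ, ∃ l : List P.State,
      P.IsComp (inp w δ) l true ∧ l.length < 2 ^ j * (2 * p) := by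
    intro w hw
    obtain ⟨h1, h2⟩ := mem_vals hδ hw
    exact hT (inp w δ) (by rw [value_inp, h2, hSa])
  choose! L hL hLlen using hcomp
  -- choose intervals and sets of missing nodes
  have hint : ∀ w ∈ vals (top d j) a₀ δ, ∃ a b i, ∃ J : Finset (bfly d ((j + 1) * d)).V,
      a ≤ b ∧ i < j ∧
      J ⊆ Mis (rd P (top d j) w (L w)) a b ∧ J ⊆ blk d ((j + 1) * d) i ∧ J.card = m ∧
      (∀ v ∈ J, (bfly d ((j + 1) * d)).Below (top d j) v) ∧
      ∀ v, Wst P w (L w) v → ∀ σ, (bfly d ((j + 1) * d)).kid v σ ∉ J := by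
    intro w hw
    obtain ⟨h1, h2⟩ := mem_vals hδ hw
    obtain ⟨a, b, i, hab, hij, hpp⟩ := exists_interval' hP hSδ h1 (hL w hw) hp hn (hLlen w hw)
    -- nodes with wasteful reads
    set Z : Finset (bfly d ((j + 1) * d)).V := univ.filter fun i => Wst P w (L w) i with hZ
    have hZt : Z.card ≤ t := by
      have hex : ∀ i ∈ Z, ∃ v : (bfly d ((j + 1) * d)).Var k,
          v.1 = i ∧ ¬ v.2 = kidVal w v.1 ∧
          ∃ q ∈ L w, P.query q = v := by
        intro i hi
        obtain ⟨q, hq, h3, h4⟩ := (mem_filter.mp hi).2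
        exact ⟨P.query q, h3, h4, q, hq, rfl⟩
      choose! v hv1 hv2 hv3 using hex
      have h3 := hW (inp w δ) (L w) (hL w hw) (Z.image v) (by
        intro u hu
        obtain ⟨i, hi, rfl⟩ := mem_image.mp hu
        refine ⟨?_, hv3 i hi⟩
        rw [Relevant, value_inp]
        exact hv2 i hi)
      rwa [card_image_of_injOn] at h3
      intro i hi j hj hij
      have h4 : (v i).1 = (v j).1 := by rw [hij]
      rwa [hv1 i hi, hv1 j hj] at h4
    set KZ : Finset (bfly d ((j + 1) * d)).V := Z.biUnion fun i =>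
      (univ : Finset (Fin ((bfly d ((j + 1) * d)).deg i))).image ((bfly d ((j + 1) * d)).kid i)
      with hKZ
    have hKZ' : KZ.card ≤ 2 * t := by
      calc KZ.card ≤ Z.card * 2 := card_biUnion_le_card_mul _ _ _ (fun i _ =>
            card_image_le.trans (by rw [card_univ, Fintype.card_fin]; exact hd i))
        _ ≤ t * 2 := Nat.mul_le_mul_right _ hZt
        _ = 2 * t := Nat.mul_comm _ _
    have h3 : m ≤ ((Mis (rd P (top d j) w (L w)) a b ∩ blk d ((j + 1) * d) i) \ KZ).card := by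
      have := le_card_sdiff KZ (Mis (rd P (top d j) w (L w)) a b ∩ blk d ((j + 1) * d) i)
      omega
    obtain ⟨J, hJ1, hJ2⟩ := exists_subset_card_eq h3
    refine ⟨a, b, i, J, hab, hij, fun j hj => (mem_inter.1 (mem_sdiff.mp (hJ1 hj)).1).1,
      fun j hj => (mem_inter.1 (mem_sdiff.mp (hJ1 hj)).1).2, hJ2, ?_, ?_⟩
    · intro v hv
      obtain ⟨_, i, hi, σ, hσ⟩ := mem_Mis.mp (mem_inter.1 (mem_sdiff.mp (hJ1 hv)).1).1
      obtain ⟨c, _, _, h4⟩ := mem_M.mp hi
      exact hσ ▸ (mem_rd.mp h4).1.kid σ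
    · intro v hv σ hσ
      refine (mem_sdiff.mp (hJ1 hσ)).2 ?_
      rw [hKZ, mem_biUnion]
      exact ⟨v, by simp [hZ, hv], mem_image.mpr ⟨σ, mem_univ _, rfl⟩⟩
  choose! A B I J hAB hI hJ hJI hJm hJb hJW using hint
  -- the signature
  let sig : ((bfly d ((j + 1) * d)).V → Fin k) →
      ((P.State ⊕ Bool) × (P.State ⊕ Bool)) × Finset (bfly d ((j + 1) * d)).V := fun w =>
    ((pt (L w) (Sum.inr true) (A w), pt (L w) (Sum.inr true) (B w)), J w)
  have h1 := card_le_mul_card_image (f := sig) (vals (top d j) a₀ δ)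
    (2 ^ m * (k - 1) ^ (2 * t) * (k - 1) ^ (Fintype.card (bfly d ((j + 1) * d)).V - m)) (by
    intro g hg
    obtain ⟨w₀, hw₀, rfl⟩ := mem_image.mp hg
    have h2 := fiber_card' hk δ (F := (vals (top d j) a₀ δ).filter fun w => sig w = sig w₀)
      (J := J w₀) (e := 2 * t) (fun w hw => (mem_vals hδ (mem_filter.mp hw).1).1) (by
        intro w hw z hz hwz
        obtain ⟨hwv, hws⟩ := mem_filter.mp hw
        obtain ⟨hzv, hzs⟩ := mem_filter.mp hz
        simp only [sig, Prod.mk.injEq] at hws hzs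
        obtain ⟨⟨hw1, hw2⟩, hw3⟩ := hws
        obtain ⟨⟨hz1, hz2⟩, hz3⟩ := hzs
        refine hybrid (r := top d j) (J := J w₀) hd hW (hL w hwv) (hL z hzv) (hAB w hwv)
          (hw1.trans hz1.symm) (hw2.trans hz2.symm) ?_ ?_ hwz ?_ ?_
        · rw [← hw3]; exact hJ w hwv
        · rw [← hw3]; exact hJb w hwv
        · rw [← hw3]; exact hJW w hwv
        · rw [← hz3]; exact hJW z hzv)
    rw [hJm w₀ hw₀] at h2
    exact h2)
  rw [vals_card] at h1
  refine h1.trans (Nat.mul_le_mul_left _ ?_)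
  have h2 : (vals (top d j) a₀ δ).image sig ⊆ (univ ×ˢ univ) ×ˢ
      ((range j).biUnion fun i => powersetCard m (blk d ((j + 1) * d) i)) := by
    intro g hg
    obtain ⟨w, hw, rfl⟩ := mem_image.mp hg
    simp only [mem_product, mem_univ, true_and, mem_biUnion, mem_range, mem_powersetCard]
    exact ⟨I w, hI w hw, hJI w hw, hJm w hw⟩
  refine (card_le_card h2).trans ?_
  rw [card_product, card_product, card_univ, Fintype.card_sum, Fintype.card_bool]
  refine Nat.mul_le_mul_left _ ?_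
  calc ((range j).biUnion fun i => powersetCard m (blk d ((j + 1) * d) i)).card
      ≤ (range j).card * (d * 2 ^ d).choose m := card_biUnion_le_card_mul _ _ _ (fun i _ => by
        rw [card_powersetCard]
        exact Nat.choose_le_choose _ (card_blk _ _))
    _ = j * (d * 2 ^ d).choose m := by rw [card_range]

end Pool.Agent.TH679.TS
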