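import Pool.Agent.TH679.TS.Walk

/-!
Stacks of butterfly networks: a short sequence of nodes has an interval with many missing nodes in
one of the butterflies.
-/

set_option autoImplicit false

namespace Pool.Agent.TH679.TS

open Finset
open Pool.Agent.W994.DE (Dag)
open Pool.Agent.W994.DE.Dag
open Pool.Agent.TH679.PD

variable {d H : ℕ} [NeZero d]

theorem M_empty {G : Dag} (R : ℕ → Finset G.V) (a : ℕ) : M R a a = ∅ := by
  ext v
  rw [mem_M]
  constructor
  · rintro ⟨t, h1, h2, _⟩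
    omega
  · intro h
    exact absurd h (notMem_empty _)

theorem lv_empty (R : ℕ → Finset (bfly d H).V) (a₀ t : ℕ) (ht : t < H + 1) :
    lv (M R a₀ a₀) t ht = ∅ := by
  ext a
  rw [mem_lv, M_empty]
  simp

theorem lv_union (R : ℕ → Finset (bfly d H).V) {a₀ c₀ b₀ t : ℕ} (h1 : a₀ ≤ c₀) (h2 : c₀ ≤ b₀)
    (ht : t < H + 1) : lv (M R a₀ b₀) t ht = lv (M R a₀ c₀) t ht ∪ lv (M R c₀ b₀) t ht := by
  ext a
  rw [mem_union, mem_lv, mem_lv, mem_lv, M_union h1 h2, mem_union]

theorem lv_one {R : ℕ → Finset (bfly d H).V} (hR : ∀ t, (R t).card ≤ 1) (a₀ t : ℕ)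
    (ht : t < H + 1) : (lv (M R a₀ (a₀ + 1)) t ht).card ≤ 1 := by
  rw [Finset.card_le_one]
  intro a ha b hb
  rw [mem_lv, mem_M] at ha hb
  obtain ⟨s, h1, h2, h3⟩ := ha
  obtain ⟨s', h1', h2', h3'⟩ := hb
  have e1 : s' = s := by omega
  rw [e1] at h3'
  exact (nd_inj (Finset.card_le_one.1 (hR s) _ h3 _ h3')).2

/-- an interval can be cut after `m` nodes of a level -/
theorem lv_cut {R : ℕ → Finset (bfly d H).V} (hR : ∀ t, (R t).card ≤ 1) {a₀ t : ℕ}
    (ht : t < H + 1) (m : ℕ) :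
    ∀ b₀, a₀ ≤ b₀ → m ≤ (lv (M R a₀ b₀) t ht).card → ∃ c₀, a₀ ≤ c₀ ∧ c₀ ≤ b₀ ∧
      (lv (M R a₀ c₀) t ht).card = m := by
  intro b₀ hab
  induction b₀, hab using Nat.le_induction with
  | base =>
    intro h
    rw [lv_empty, card_empty] at h
    exact ⟨a₀, le_rfl, le_rfl, by rw [lv_empty, card_empty]; omega⟩
  | succ b₀ hab ih =>
    intro h
    by_cases h1 : m ≤ (lv (M R a₀ b₀) t ht).card
    · obtain ⟨c₀, g1, g2, g3⟩ := ih h1
      exact ⟨c₀, g1, by omega, g3⟩
    · refine ⟨b₀ + 1, by omega, le_rfl, ?_⟩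
      rw [lv_union R hab (show b₀ ≤ b₀ + 1 by omega)] at h ⊢
      have h2 := card_union_le (lv (M R a₀ b₀) t ht) (lv (M R b₀ (b₀ + 1)) t ht)
      have h3 := lv_one hR b₀ t ht
      omega

theorem lv_le {R : ℕ → Finset (bfly d H).V} (hR : ∀ t, (R t).card ≤ 1) {a₀ t : ℕ}
    (ht : t < H + 1) : ∀ b₀, a₀ ≤ b₀ → (lv (M R a₀ b₀) t ht).card ≤ b₀ - a₀ := by
  intro b₀ hab
  induction b₀, hab using Nat.le_induction with
  | base =>
    rw [lv_empty, card_empty]
    exact Nat.zero_le _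
  | succ b₀ hab ih =>
    rw [lv_union R hab (show b₀ ≤ b₀ + 1 by omega)]
    have h2 := card_union_le (lv (M R a₀ b₀) t ht) (lv (M R b₀ (b₀ + 1)) t ht)
    have h3 := lv_one hR b₀ t ht
    omega

/-- The recursion: if no interval has more than `p` missing nodes in one of the first `J`
butterflies, then an interval with `2 p` nodes of the level `j d`, where `j ≤ J`, has length at
least `2 ^ j * 2 p`. -/
theorem long {R : ℕ → Finset (bfly d H).V} (hR : ∀ t, (R t).card ≤ 1) {p J : ℕ} (hp : 1 ≤ p)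
    (hn : 8 * p ≤ 2 ^ d)
    (hM : ∀ a b i, a ≤ b → i < J → (Mis R a b ∩ blk d H i).card ≤ p) : ∀ (j : ℕ), j ≤ J → ∀
    (hj : j * d < H + 1) (a₀ b₀ : ℕ), a₀ ≤ b₀ → 2 * p ≤ (lv (M R a₀ b₀) (j * d) hj).card →
      2 ^ j * (2 * p) ≤ b₀ - a₀ := by
  intro j
  induction j with
  | zero =>
    intro _ hj a₀ b₀ hab h
    rw [pow_zero, one_mul]
    exact h.trans (lv_le hR hj b₀ hab)
  | succ j ih =>
    intro hJ hj a₀ b₀ hab h
    have hj' : j * d < H + 1 := by rw [add_mul] at hj; omega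
    have h1 := lv_compl (M R a₀ b₀) hj hj' (p := p) (by
      rw [← Mis_eq]
      exact hM a₀ b₀ j hab (by omega)) h
    have h3 : 2 * (2 ^ d - (lv (M R a₀ b₀) (j * d) hj').card) ≤ 2 ^ d := by
      have : p * (2 * (2 ^ d - (lv (M R a₀ b₀) (j * d) hj').card)) ≤ p * 2 ^ d := by
        calc p * (2 * (2 ^ d - (lv (M R a₀ b₀) (j * d) hj').card)) =
            2 * p * (2 ^ d - (lv (M R a₀ b₀) (j * d) hj').card) := by ring
          _ ≤ _ := h1
      exact Nat.le_of_mul_le_mul_left this (by omega)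
    have h5 : 4 * p ≤ (lv (M R a₀ b₀) (j * d) hj').card := by omega
    obtain ⟨c₀, g1, g2, g3⟩ := lv_cut hR hj' (2 * p) b₀ hab (by omega)
    have h6 := card_union_le (lv (M R a₀ c₀) (j * d) hj') (lv (M R c₀ b₀) (j * d) hj')
    rw [← lv_union R g1 g2] at h6
    have h7 := ih (by omega) hj' a₀ c₀ g1 (by omega)
    have h8 := ih (by omega) hj' c₀ b₀ g2 (by omega)
    have h9 : 2 ^ (j + 1) * (2 * p) = 2 ^ j * (2 * p) + 2 ^ j * (2 * p) := by ring
    omega

/-- the node at the top -/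
def top (d j : ℕ) [NeZero d] : (bfly d ((j + 1) * d)).V :=
  nd ((j + 1) * d) (Nat.lt_succ_self _) fun _ => false

/-- A short sequence of nodes without missing nodes which contains the top node has an interval
with more than `p` missing nodes in one of the first `j` butterflies. -/
theorem exists_gap {j T p : ℕ} {R : ℕ → Finset (bfly d ((j + 1) * d)).V}
    (hR : ∀ t, (R t).card ≤ 1) (h0 : Mis R 0 T = ∅) (hr : top d j ∈ M R 0 T) (hp : 1 ≤ p)
    (hn : 8 * p ≤ 2 ^ d) (hT : T < 2 ^ j * (2 * p)) :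
    ∃ a b i, a ≤ b ∧ i < j ∧ p < (Mis R a b ∩ blk d ((j + 1) * d) i).card := by
  by_contra hno
  push Not at hno
  have hj : j * d < (j + 1) * d + 1 := by rw [add_mul]; omega
  have h := long hR hp hn hno j le_rfl hj 0 T (Nat.zero_le _) ?_
  · omega
  · have h1 : lv (M R 0 T) (j * d) hj = univ := by
      ext b
      rw [mem_lv]
      refine ⟨fun _ => mem_univ _, fun _ => ?_⟩
      refine walkS (Nat.lt_succ_self _) hr ?_
      intro s _ _
      rw [← Mis_eq, h0]
      exact notMem_empty _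
    rw [h1, card_univ, Fintype.card_fun, Fintype.card_bool, Fintype.card_fin]
    omega

end Pool.Agent.TH679.TS
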