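import Pool.Agent.TH679.TS.Cells

/-!
Nondeterministic almost thrifty programs for stacks of butterfly networks: the bounds
-/

set_option autoImplicit false

namespace Pool.Agent.TH679.TS

open Finset
open Pool.Agent.H554R2.Thrifty (BP)
open Pool.Agent.W994.DE (Dag Trav trav_congr isComp_iff exists_nodup pt)
open Pool.Agent.W994.DE.Dag
open Pool.Agent.TH679.PD

theorem pow_self_le (m : ℕ) : m ^ m ≤ 3 ^ m * m.factorial := by
  have h1 := Real.pow_div_factorial_le_exp (m : ℝ) (Nat.cast_nonneg m) m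
  have h2 : Real.exp (m : ℝ) ≤ 3 ^ m := by
    have h3 : Real.exp (m : ℝ) = Real.exp 1 ^ m := by
      rw [← Real.exp_nat_mul, mul_one]
    rw [h3]
    exact pow_le_pow_left₀ (Real.exp_pos 1).le Real.exp_one_lt_three.le m
  have h3 : (0 : ℝ) < m.factorial := by exact_mod_cast Nat.factorial_pos m
  have h4 : (m : ℝ) ^ m ≤ 3 ^ m * m.factorial := by
    rw [div_le_iff₀ h3] at h1
    exact h1.trans (mul_le_mul_of_nonneg_right h2 h3.le)
  exact_mod_cast h4

theorem choose_le {a g m : ℕ} (h : g ≤ m) : (a * (16 * g)).choose m ≤ (48 * a) ^ m := by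
  have h1 : m.factorial * (a * (16 * g)).choose m ≤ (a * (16 * m)) ^ m := by
    rw [← Nat.descFactorial_eq_factorial_mul_choose]
    refine (Nat.descFactorial_le_pow _ _).trans (Nat.pow_le_pow_left ?_ _)
    exact Nat.mul_le_mul_left _ (Nat.mul_le_mul_left _ h)
  have h2 := pow_self_le m
  have h3 : m ^ m * (a * (16 * g)).choose m ≤ m ^ m * (48 * a) ^ m := by
    calc m ^ m * (a * (16 * g)).choose m ≤ 3 ^ m * m.factorial * (a * (16 * g)).choose m :=
          Nat.mul_le_mul_right _ h2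
      _ = 3 ^ m * (m.factorial * (a * (16 * g)).choose m) := by ring
      _ ≤ 3 ^ m * (a * (16 * m)) ^ m := Nat.mul_le_mul_left _ h1
      _ = m ^ m * (48 * a) ^ m := by
          rw [← mul_pow, ← mul_pow]
          congr 1
          ring
  rcases Nat.eq_zero_or_pos m with h4 | h4
  · subst h4
    simp
  · exact Nat.le_of_mul_le_mul_left h3 (Nat.pow_pos h4)

variable {d : ℕ} [NeZero d]

/-- The lower bound for short computations. -/
theorem law {j k t : ℕ} {P : BP ((bfly d ((j + 1) * d)).Var k) k} {S : Fin k → Bool}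
    {a₀ δ : Fin k} (hd : 5 ≤ d) (ht : 64 * t ≤ 2 ^ d) (hk : (96 * d) ^ 4 < k)
    (hP : Decides P (top d j) S) (hW : Waste P t) (hSa : S a₀ = true) (hSδ : S δ = false)
    (hT : ∀ x, S (value x (top d j)) = true →
      ∃ l, P.IsComp x l true ∧ l.length < 2 ^ (j + d - 2)) :
    (k - 1) ^ 2 ^ (d - 5) ≤ P.size ^ 2 * j := by
  obtain ⟨e, rfl⟩ : ∃ e, d = e + 5 := ⟨d - 5, by omega⟩
  have e1 : e + 5 - 5 = e := by omega
  rw [e1]
  obtain ⟨h, hh⟩ : ∃ h, 2 ^ e = h := ⟨_, rfl⟩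
  have hh1 : 1 ≤ h := by rw [← hh]; exact Nat.one_le_two_pow
  have hn : 2 ^ (e + 5) = 32 * h := by rw [pow_add, hh]; ring
  rw [hh]
  rw [hn] at ht
  -- the numbers `g = n / 16`, `p = n / 8`, `m = 1 + 2 t + g`
  have hT' : ∀ x, S (value x (top (e + 5) j)) = true →
      ∃ l, P.IsComp x l true ∧ l.length < 2 ^ j * (2 * (4 * h)) := by
    intro x hx
    obtain ⟨l, h1, h2⟩ := hT x hx
    refine ⟨l, h1, lt_of_lt_of_le h2 (le_of_eq ?_)⟩
    have e2 : j + (e + 5) - 2 = j + (e + 3) := by omega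
    rw [e2, pow_add, pow_add, hh]
    ring
  have hc := count (p := 4 * h) (m := 1 + 2 * t + 2 * h) hP hW hSa hSδ (by omega)
    (by rw [hn]; omega) hT' (by omega)
  obtain ⟨v, hv⟩ : ∃ v, Fintype.card (bfly (e + 5) ((j + 1) * (e + 5))).V = v := ⟨_, rfl⟩
  have hv1 : 32 * h ≤ v := by
    rw [← hv, card_V, hn]
    exact Nat.le_mul_of_pos_left _ (Nat.succ_pos _)
  rw [hv, hn] at hc
  have hk0 : 0 < (96 * (e + 5)) ^ 4 := by positivity
  have hk1 : 1 ≤ k - 1 := by omega
  have hch : ((e + 5) * (32 * h)).choose (1 + 2 * t + 2 * h) ≤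
      (48 * (e + 5)) ^ (1 + 2 * t + 2 * h) := by
    have := choose_le (a := e + 5) (g := 2 * h) (m := 1 + 2 * t + 2 * h) (by omega)
    have e2 : 16 * (2 * h) = 32 * h := by ring
    rw [e2] at this
    exact this
  -- cancel
  have h1 : (k - 1) ^ (2 * h) ≤ P.size ^ 2 * j * (96 * (e + 5)) ^ (4 * h) := by
    have h2 : (k - 1) ^ (v - (1 + 2 * t + 2 * h)) * (k - 1) ^ (2 * t) * (k - 1) ^ (2 * h) =
        (k - 1) ^ (v - 1) := by
      rw [← pow_add, ← pow_add]
      congr 1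
      omega
    have h3 : (k - 1) ^ (v - (1 + 2 * t + 2 * h)) * (k - 1) ^ (2 * t) * (k - 1) ^ (2 * h) ≤
        (k - 1) ^ (v - (1 + 2 * t + 2 * h)) * (k - 1) ^ (2 * t) *
        (P.size ^ 2 * j * (96 * (e + 5)) ^ (4 * h)) := by
      rw [h2]
      refine hc.trans ?_
      calc 2 ^ (1 + 2 * t + 2 * h) * (k - 1) ^ (2 * t) * (k - 1) ^ (v - (1 + 2 * t + 2 * h)) *
            (P.size * P.size * (j * ((e + 5) * (32 * h)).choose (1 + 2 * t + 2 * h)))
          ≤ 2 ^ (1 + 2 * t + 2 * h) * (k - 1) ^ (2 * t) *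
            (k - 1) ^ (v - (1 + 2 * t + 2 * h)) *
            (P.size * P.size * (j * (48 * (e + 5)) ^ (1 + 2 * t + 2 * h))) :=
            Nat.mul_le_mul_left _ (Nat.mul_le_mul_left _ (Nat.mul_le_mul_left _ hch))
        _ = (k - 1) ^ (v - (1 + 2 * t + 2 * h)) * (k - 1) ^ (2 * t) *
            (P.size ^ 2 * j * (2 * (48 * (e + 5))) ^ (1 + 2 * t + 2 * h)) := by
            rw [mul_pow 2 (48 * (e + 5))]
            ring
        _ ≤ _ := by
            refine Nat.mul_le_mul_left _ (Nat.mul_le_mul_left _ ?_)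
            have e2 : 2 * (48 * (e + 5)) = 96 * (e + 5) := by ring
            rw [e2]
            exact Nat.pow_le_pow_right (by omega) (by omega)
    exact Nat.le_of_mul_le_mul_left h3 (Nat.mul_pos (Nat.pow_pos hk1) (Nat.pow_pos hk1))
  have h4 : (96 * (e + 5)) ^ (4 * h) ≤ (k - 1) ^ h := by
    rw [pow_mul]
    exact Nat.pow_le_pow_left (by omega) h
  have h5 : (k - 1) ^ h * (k - 1) ^ h ≤ (k - 1) ^ h * (P.size ^ 2 * j) := by
    calc (k - 1) ^ h * (k - 1) ^ h = (k - 1) ^ (2 * h) := by rw [← pow_add]; congr 1; ring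
      _ ≤ P.size ^ 2 * j * (96 * (e + 5)) ^ (4 * h) := h1
      _ ≤ P.size ^ 2 * j * (k - 1) ^ h := Nat.mul_le_mul_left _ h4
      _ = (k - 1) ^ h * (P.size ^ 2 * j) := by ring
  exact Nat.le_of_mul_le_mul_left h5 (Nat.pow_pos hk1)

/-- The number of steps of a simple computation is less than the number of states. -/
theorem short {k j : ℕ} {P : BP ((bfly d ((j + 1) * d)).Var k) k} {S : Fin k → Bool}
    (hP : Decides P (top d j) S) : ∀ x, S (value x (top d j)) = true →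
      ∃ l, P.IsComp x l true ∧ l.length + 2 ≤ P.size := by
  intro x hx
  obtain ⟨l, hl⟩ := (hP x).2 hx
  obtain ⟨l', h1, h2⟩ := exists_nodup (isComp_iff.1 hl)
  exact ⟨l', isComp_iff.2 h2, Nat.add_le_add_right h1.length_le_card 2⟩

end Pool.Agent.TH679.TS
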