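import Pool.Agent.TH679.TS.Asym
import Pool.Agent.W994.DE.Main3
import Pool.Agent.W994.DE.Asym2

/-!
Nondeterministic programs with few steps for stacks of butterfly networks
-/

set_option autoImplicit false

namespace Pool.Agent.TH679.TS

open Finset
open Pool.Agent.H554R2.Thrifty (BP)
open Pool.Agent.W994.DE (Dag Trav trav_congr isComp_iff exists_nodup pt)
open Pool.Agent.W994.DE.Dag
open Pool.Agent.TH679.PD

theorem Bd_eq {G : Dag} (E : Finset G.V) : Bd E = Ms (univ \ E) := by
  ext v
  rw [mem_Bd, mem_Ms]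
  simp

variable {d H : ℕ} [NeZero d]

theorem str_one {φ e : ℕ} (hφ : 1 ≤ φ) {E : Finset (bfly d H).V} (hE : Str φ e E) {t : ℕ}
    (ht : t < H + 1) (h : 4 * φ ≤ (lv (univ \ E) t ht).card) : 1 ≤ e := by
  rcases Nat.eq_zero_or_pos e with h0 | h0
  · subst h0
    obtain ⟨i₀, hi₀⟩ := hE.inv_zero
    have h1 : (lv (univ \ E) t ht).card ≤ 1 := by
      rw [Finset.card_le_one]
      intro a ha b hb
      rw [mem_lv, mem_sdiff] at ha hb
      have h2 : nd t ht a = i₀ := by
        by_contra hne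
        exact ha.2 (hi₀ _ hne)
      have h3 : nd t ht b = i₀ := by
        by_contra hne
        exact hb.2 (hi₀ _ hne)
      exact (nd_inj (h2.trans h3.symm)).2
    omega
  · exact h0

/-- The recursion: each butterfly needs a level of the hierarchy. -/
theorem str_depth {φ : ℕ} (hφ : 1 ≤ φ) (hn : 11 * φ ≤ 2 ^ d) : ∀ (j e : ℕ)
    (hj : j * d < H + 1) (E : Finset (bfly d H).V), Str φ e E → (Bd E).card ≤ φ →
    4 * φ ≤ (lv (univ \ E) (j * d) hj).card → j + 1 ≤ e := by
  intro j
  induction j with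
  | zero =>
    intro e hj E hE _ h
    have := str_one hφ hE hj h
    omega
  | succ j ih =>
    intro e hj E hE hB h
    have he := str_one hφ hE hj h
    have hj' : j * d < H + 1 := by rw [add_mul] at hj; omega
    have h1 := lv_compl (univ \ E) hj hj' (p := φ) (by
      rw [← Bd_eq]
      exact (card_le_card inter_subset_left).trans hB) h
    have h3 : 4 * (2 ^ d - (lv (univ \ E) (j * d) hj').card) ≤ 2 ^ d := by
      have : φ * (4 * (2 ^ d - (lv (univ \ E) (j * d) hj').card)) ≤ φ * 2 ^ d := by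
        calc φ * (4 * (2 ^ d - (lv (univ \ E) (j * d) hj').card)) =
            4 * φ * (2 ^ d - (lv (univ \ E) (j * d) hj').card) := by ring
          _ ≤ _ := h1
      exact Nat.le_of_mul_le_mul_left this (by omega)
    obtain ⟨e', rfl⟩ : ∃ e', e = e' + 1 := ⟨e - 1, by omega⟩
    obtain ⟨E₁, E₂, g1, g2, g3, g4, g5⟩ := hE.inv_succ
    have h6 : (lv (univ \ E) (j * d) hj').card ≤
        (lv (univ \ E₁) (j * d) hj').card + (lv (univ \ E₂) (j * d) hj').card := by
      refine (card_le_card fun a ha => ?_).trans (card_union_le _ _)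
      rw [mem_union, mem_lv, mem_lv, mem_sdiff, mem_sdiff]
      rw [mem_lv, mem_sdiff] at ha
      by_contra hno
      simp only [mem_univ, true_and, not_or, not_not] at hno
      exact ha.2 (g5 (mem_inter.2 hno))
    have h7 : 4 * φ ≤ (lv (univ \ E₁) (j * d) hj').card ∨
        4 * φ ≤ (lv (univ \ E₂) (j * d) hj').card := by
      by_contra hno
      push Not at hno
      omega
    rcases h7 with h7 | h7
    · have := ih e' hj' E₁ g1 g3 h7
      omega
    · have := ih e' hj' E₂ g2 g4 h7
      omega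

theorem below_level {j : ℕ} (hj : j * d < (j + 1) * d + 1) (b : Fin d → Bool) :
    (bfly d ((j + 1) * d)).Below (top d j) (nd (j * d) hj b) := by
  classical
  set A : Finset (bfly d ((j + 1) * d)).V :=
    univ.filter fun i => (bfly d ((j + 1) * d)).Below (top d j) i with hA
  have h1 : nd (j * d) hj b ∈ A := by
    refine walkS (a := fun _ => false) (Nat.lt_succ_self _) ?_ ?_
    · rw [hA, mem_filter]
      exact ⟨mem_univ _, Relation.ReflTransGen.refl⟩
    · intro s _ _ h
      obtain ⟨h2, i, h3, c, hc⟩ := mem_Ms.1 h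
      rw [hA, mem_filter] at h3
      refine h2 ?_
      rw [hA, mem_filter, ← hc]
      exact ⟨mem_univ _, h3.2.kid c⟩
  rw [hA, mem_filter] at h1
  exact h1.2

/-- The lower bound for short computations. -/
theorem law_short {j k τ s m : ℕ} {P : BP ((bfly d ((j + 1) * d)).Var k) k} {S : Fin k → Bool}
    {a₀ δ : Fin k} (hP : Decides P (top d j) S) (hSa : S a₀ = true) (hSδ : S δ = false)
    (hT : ∀ x, S (value x (top d j)) = true → ∃ l, P.IsComp x l true ∧ l.length ≤ 2 ^ τ)
    (hs : P.size ≤ 2 ^ s) (hτ : τ ≤ j)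
    (hk : (8 * 4 ^ τ * Fintype.card (bfly d ((j + 1) * d)).V *
      (Fintype.card (bfly d ((j + 1) * d)).V + 1)) ^ (m + 1) ≤ k ^ m)
    (hk' : 16 * 4 ^ τ * (Fintype.card (bfly d ((j + 1) * d)).V + 1) < k) :
    2 ^ d < 11 * ((m + 1) * (3 + 2 * s / Nat.log 2 k)) := by
  classical
  by_contra hno
  push Not at hno
  obtain ⟨E, h1, h2, h3⟩ := main_str (m := m) hP hSa hSδ (deg_le _) (by norm_num) hT hs (by
    refine le_trans (le_of_eq ?_) hk
    congr 1
    ring) (by
    refine lt_of_le_of_lt (le_of_eq ?_) hk'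
    ring)
  obtain ⟨φ, hφ⟩ : ∃ φ, (m + 1) * (3 + 2 * s / Nat.log 2 k) = φ := ⟨_, rfl⟩
  rw [hφ] at h1 h2 hno
  have hφ1 : 1 ≤ φ := by
    rw [← hφ]
    exact Nat.mul_pos (Nat.succ_pos _) (Nat.add_pos_left (by norm_num) _)
  have hj : j * d < (j + 1) * d + 1 := by rw [add_mul]; omega
  have h4 : lv (univ \ E) (j * d) hj = univ := by
    ext b
    rw [mem_lv, mem_sdiff]
    exact ⟨fun _ => mem_univ _, fun _ => ⟨mem_univ _, h3 _ (below_level hj b)⟩⟩
  have h5 := str_depth hφ1 hno j τ hj E h1 h2 (by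
    rw [h4, card_univ, Fintype.card_fun, Fintype.card_bool, Fintype.card_fin]
    omega)
  omega

end Pool.Agent.TH679.TS
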