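import Pool.Agent.TH679.PD.Bfly
import Pool.Agent.W994.DE.Interval

/-!
Stacks of butterfly networks: sets of nodes with few missing children in one of the butterflies.
-/

set_option autoImplicit false

namespace Pool.Agent.TH679.TS

open Finset
open Pool.Agent.W994.DE (Dag)
open Pool.Agent.W994.DE.Dag
open Pool.Agent.TH679.PD

/-- The nodes which are not in `A`, but have a parent in `A`. -/
def Ms {G : Dag} (A : Finset G.V) : Finset G.V :=
  univ.filter fun v => v ∉ A ∧ ∃ i ∈ A, ∃ s, G.kid i s = v

theorem mem_Ms {G : Dag} {A : Finset G.V} {v : G.V} :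
    v ∈ Ms A ↔ v ∉ A ∧ ∃ i ∈ A, ∃ s, G.kid i s = v := by
  simp [Ms]

theorem Mis_eq {G : Dag} (R : ℕ → Finset G.V) (a b : ℕ) : Mis R a b = Ms (M R a b) := rfl

variable {d H : ℕ} [NeZero d]

/-- The butterfly number `i`: the nodes whose level is at least `i d` and less than
`(i + 1) d`. -/
def blk (d H : ℕ) [NeZero d] (i : ℕ) : Finset (bfly d H).V :=
  univ.filter fun v => i * d ≤ v.1.val ∧ v.1.val < (i + 1) * d

theorem mem_blk {i : ℕ} {v : (bfly d H).V} :
    v ∈ blk d H i ↔ i * d ≤ v.1.val ∧ v.1.val < (i + 1) * d := by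
  simp [blk]

theorem walkS {A : Finset (bfly d H).V} {j : ℕ}
    (hT : (j + 1) * d < H + 1) {a b : Fin d → Bool}
    (ha : nd ((j + 1) * d) hT a ∈ A)
    (hP : ∀ s, 1 ≤ s → s ≤ d → nd ((j + 1) * d - s) (by omega) (mix b a s) ∉ Ms A) :
    nd (j * d) (by rw [add_mul] at hT; omega) b ∈ A := by
  have key : ∀ s, s ≤ d → nd ((j + 1) * d - s) (by omega) (mix b a s) ∈ A := by
    intro s
    induction s with
    | zero =>
      intro _
      rw [mix_zero]
      exact ha
    | succ s ih =>
      intro hs
      have h1 := ih (by omega)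
      have h2 : (j + 1) * d = j * d + d := by ring
      have h3 : (j + 1) * d - s = (j + 1) * d - (s + 1) + 1 := by omega
      have h4 : ((j + 1) * d - (s + 1)) % d = d - 1 - s := by
        have h5 : (j + 1) * d - (s + 1) = (d - 1 - s) + j * d := by omega
        rw [h5, Nat.add_mul_mod_self_right, Nat.mod_eq_of_lt (by omega)]
      obtain ⟨c, hc⟩ := kid_exists (H := H) ((j + 1) * d - (s + 1)) (by omega) (mix b a s)
        (b (Fin.ofNat d ((j + 1) * d - (s + 1))))
      rw [mix_succ b a (by omega) h4] at hc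
      have h6 : nd ((j + 1) * d - s) (by omega) (mix b a s) =
          nd (H := H) ((j + 1) * d - (s + 1) + 1) (by omega) (mix b a s) := by
        congr 1
      rw [h6] at h1
      have h7 := hP (s + 1) (by omega) hs
      by_contra hno
      exact h7 (mem_Ms.2 ⟨hno, _, h1, c, hc⟩)
  have h := key d le_rfl
  rw [mix_d] at h
  have h2 : (j + 1) * d - d = j * d := by
    rw [add_mul, one_mul]
    omega
  have h3 : nd (H := H) ((j + 1) * d - d) (by omega) b =
      nd (j * d) (by rw [add_mul] at hT; omega) b := by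
    congr 1
  rw [← h3]
  exact h

/-- the words `a` such that `(t, a)` is in `A` -/
def lv (A : Finset (bfly d H).V) (t : ℕ) (ht : t < H + 1) : Finset (Fin d → Bool) :=
  univ.filter fun a => nd t ht a ∈ A

theorem mem_lv {A : Finset (bfly d H).V} {t : ℕ} {ht : t < H + 1} {a : Fin d → Bool} :
    a ∈ lv A t ht ↔ nd t ht a ∈ A := by
  simp [lv]

/-- Every node of the level `(j + 1) d` in `A` and every node of the level `j d` which is not in
`A` are joined by a walk with a missing node. -/
theorem manyS (A : Finset (bfly d H).V) {j : ℕ} (hT : (j + 1) * d < H + 1) (hj : j * d < H + 1) :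
    (lv A ((j + 1) * d) hT).card * (univ \ lv A (j * d) hj).card ≤
      (Ms A ∩ blk d H j).card * 2 ^ d := by
  classical
  set O := lv A ((j + 1) * d) hT
  set U := univ \ lv A (j * d) hj
  have hex : ∀ x : (Fin d → Bool) × (Fin d → Bool), ∃ s, x ∈ O ×ˢ U →
      1 ≤ s ∧ s ≤ d ∧ nd ((j + 1) * d - s) (by omega) (mix x.2 x.1 s) ∈ Ms A := by
    intro x
    by_cases hx : x ∈ O ×ˢ U
    · rw [mem_product, mem_sdiff] at hx
      by_contra hno
      push Not at hno
      refine hx.2.2 (mem_lv.2 ?_)
      exact walkS hT (mem_lv.1 hx.1) fun s h1 h2 => (hno s).2 h1 h2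
    · exact ⟨0, fun h => absurd h hx⟩
  choose s hs using hex
  have h2 : (j + 1) * d = j * d + d := by ring
  have h1 : (O ×ˢ U).card ≤
      ((Ms A ∩ blk d H j) ×ˢ (univ : Finset (Fin d → Bool))).card := by
    refine Finset.card_le_card_of_injOn
      (fun x => (nd ((j + 1) * d - s x) (by omega) (mix x.2 x.1 (s x)), mix x.1 x.2 (s x))) ?_ ?_
    · intro x hx
      obtain ⟨g1, g2, g3⟩ := hs x hx
      rw [mem_coe, mem_product]
      refine ⟨mem_inter.2 ⟨g3, mem_blk.2 ⟨?_, ?_⟩⟩, mem_univ _⟩
      · show j * d ≤ (j + 1) * d - s x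
        omega
      · show (j + 1) * d - s x < (j + 1) * d
        omega
    · intro x hx y hy hxy
      simp only [Prod.mk.injEq] at hxy
      obtain ⟨e1, e2⟩ := hxy
      obtain ⟨e3, e4⟩ := nd_inj e1
      have hx' := hs x hx
      have hy' := hs y hy
      have e5 : s x = s y := by omega
      rw [← e5] at e4 e2
      obtain ⟨e6, e7⟩ := mix_inj e4 e2
      exact Prod.ext e6 e7
  rw [card_product, card_product, card_univ, Fintype.card_fun, Fintype.card_bool,
    Fintype.card_fin] at h1
  exact h1

/-- If `A` contains at least `c` nodes of the level `(j + 1) d` and there are at most `p` missing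
nodes in the butterfly number `j`, then few nodes of the level `j d` are not in `A`. -/
theorem lv_compl (A : Finset (bfly d H).V) {j p c : ℕ} (hT : (j + 1) * d < H + 1)
    (hj : j * d < H + 1) (hp : (Ms A ∩ blk d H j).card ≤ p)
    (hc : c ≤ (lv A ((j + 1) * d) hT).card) :
    c * (2 ^ d - (lv A (j * d) hj).card) ≤ p * 2 ^ d := by
  have h1 := manyS A hT hj
  have h4 : (univ \ lv A (j * d) hj).card + (lv A (j * d) hj).card = 2 ^ d := by
    have := Finset.card_sdiff_add_card_eq_card (subset_univ (lv A (j * d) hj))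
    rw [card_univ, Fintype.card_fun, Fintype.card_bool, Fintype.card_fin] at this
    exact this
  have h5 : 2 ^ d - (lv A (j * d) hj).card = (univ \ lv A (j * d) hj).card := by omega
  rw [h5]
  calc c * (univ \ lv A (j * d) hj).card ≤
      (lv A ((j + 1) * d) hT).card * (univ \ lv A (j * d) hj).card := Nat.mul_le_mul_right _ hc
    _ ≤ (Ms A ∩ blk d H j).card * 2 ^ d := h1
    _ ≤ p * 2 ^ d := Nat.mul_le_mul_right _ hp

end Pool.Agent.TH679.TS
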